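import Pool.Agent.V8H35.AP.BX

set_option autoImplicit false

/-! Sums of the maxima of `|ζ|^2` on boxes. -/

namespace Pool.Agent.V8H35.AP

open Complex Metric Set MeasureTheory intervalIntegral

theorem cos_null (y r : ℝ) (hr : 0 < r) : ∀ᵐ θ : ℝ, y + r * Real.cos θ ≠ 0 := by
  by_cases h : ∃ θ₀ : ℝ, y + r * Real.cos θ₀ = 0
  · obtain ⟨θ₀, h0⟩ := h
    have hc : ({θ : ℝ | y + r * Real.cos θ = 0}).Countable := by
      have hsub : {θ : ℝ | y + r * Real.cos θ = 0} ⊆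
          (range fun k : ℤ => θ₀ - 2 * k * Real.pi) ∪ (range fun k : ℤ => 2 * k * Real.pi - θ₀) := by
        intro θ hθ
        have h1 : Real.cos θ = Real.cos θ₀ := by
          have h2 : r * Real.cos θ = r * Real.cos θ₀ := by
            have := hθ.trans h0.symm
            linarith
          exact mul_left_cancel₀ hr.ne' h2
        rw [Real.cos_eq_cos_iff] at h1
        obtain ⟨k, hk | hk⟩ := h1
        · left; exact ⟨k, by simp only; linarith⟩
        · right; exact ⟨k, by simp only; linarith⟩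
      exact ((countable_range _).union (countable_range _)).mono hsub
    filter_upwards [hc.ae_notMem volume] with θ hθ h1
    exact hθ h1
  · push Not at h
    exact Filter.Eventually.of_forall h

theorem sum6 (g : ℝ → ℝ) (hg0 : ∀ x, 0 ≤ g x) (a b : ℕ) (hab : a ≤ b)
    (hg : ∀ x y : ℝ, (a : ℝ) - 2 ≤ x → (a : ℝ) - 2 ≤ y → IntervalIntegrable g volume x y) :
    ∑ m ∈ Finset.Ico a b, ∫ u in ((m : ℝ) - 2)..((m : ℝ) + 4), g u ≤
      6 * ∫ u in ((a : ℝ) - 2)..((b : ℝ) + 3), g u := by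
  have h1 : ∀ m ∈ Finset.Ico a b, ∫ u in ((m : ℝ) - 2)..((m : ℝ) + 4), g u =
      ∑ k ∈ Finset.range 6, ∫ u in ((m : ℝ) - 2 + (k : ℕ))..((m : ℝ) - 2 + ((k + 1 : ℕ) : ℝ)), g u := by
    intro m hm
    rw [Finset.mem_Ico] at hm
    have hma : (a : ℝ) ≤ m := by exact_mod_cast hm.1
    rw [intervalIntegral.sum_integral_adjacent_intervals (a := fun k : ℕ => (m : ℝ) - 2 + (k : ℝ))
      (fun k _ => hg _ _ (by have := (Nat.cast_nonneg k : (0:ℝ) ≤ k); linarith)
        (by have := (Nat.cast_nonneg (k + 1) : (0:ℝ) ≤ ((k + 1 : ℕ) : ℝ)); linarith))]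
    congr 1
    · simp
    · push_cast; ring
  rw [Finset.sum_congr rfl h1, Finset.sum_comm]
  have h2 : ∀ k ∈ Finset.range 6, ∑ m ∈ Finset.Ico a b,
      ∫ u in ((m : ℝ) - 2 + (k : ℕ))..((m : ℝ) - 2 + ((k + 1 : ℕ) : ℝ)), g u ≤
      ∫ u in ((a : ℝ) - 2)..((b : ℝ) + 3), g u := by
    intro k hk
    rw [Finset.mem_range] at hk
    have hk0 : (0 : ℝ) ≤ k := Nat.cast_nonneg k
    have hk5 : (k : ℝ) ≤ 5 := by exact_mod_cast (by omega : k ≤ 5)
    have h3 : ∑ m ∈ Finset.Ico a b, ∫ u in ((m : ℝ) - 2 + (k : ℕ))..((m : ℝ) - 2 + ((k + 1 : ℕ) : ℝ)), g u =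
        ∫ u in ((a : ℝ) - 2 + k)..((b : ℝ) - 2 + k), g u := by
      rw [← intervalIntegral.sum_integral_adjacent_intervals_Ico (a := fun m : ℕ => (m : ℝ) - 2 + (k : ℝ)) hab
        (fun m hm => by
          have hma : (a : ℝ) ≤ m := by exact_mod_cast hm.1
          refine hg _ _ (by linarith) (by push_cast; linarith))]
      refine Finset.sum_congr rfl fun m _ => ?_
      congr 1
      push_cast; ring
    rw [h3]
    have hab' : (a : ℝ) ≤ b := by exact_mod_cast hab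
    exact intervalIntegral.integral_mono_interval (by linarith) (by linarith) (by linarith)
      (Filter.Eventually.of_forall fun x => hg0 x) (hg _ _ le_rfl (by linarith))
  refine (Finset.sum_le_sum h2).trans (le_of_eq ?_)
  rw [Finset.sum_const, Finset.card_range]
  ring

/-- the square of zeta -/
noncomputable def Q (s : ℂ) : ℂ := riemannZeta s ^ 2

theorem z_diff (z : ℂ) (hz : 0 < z.im) : DifferentiableAt ℂ riemannZeta z := by
  refine differentiableAt_riemannZeta ?_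
  intro h
  rw [h] at hz
  simp at hz

theorem Q_diff (z : ℂ) (hz : 1 ≤ z.im) : DifferentiableAt ℂ Q z := (z_diff z (by linarith)).pow 2

/-- the box -/
def Box (η B : ℝ) (m : ℕ) : Set ℂ := (Icc (1 / 2 - 3 * η) (B + 2)) ×ℂ (Icc ((m : ℝ) - 2) ((m : ℝ) + 3))

noncomputable def W (η B : ℝ) (m : ℕ) : ℝ := sSup ((fun s => ‖Q s‖) '' Box η B m)

theorem box_compact (η B : ℝ) (m : ℕ) : IsCompact (Box η B m) := isCompact_Icc.reProdIm isCompact_Icc

theorem box_cont (η B : ℝ) (m : ℕ) (hm : 3 ≤ m) : ContinuousOn (fun s => ‖Q s‖) (Box η B m) := by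
  intro s hs
  have hm' : (3 : ℝ) ≤ m := by exact_mod_cast hm
  have h1 := hs.2.1
  refine (Q_diff s ?_).continuousAt.norm.continuousWithinAt
  linarith

theorem W_le (η B : ℝ) (m : ℕ) (hm : 3 ≤ m) (s : ℂ) (hs : s ∈ Box η B m) : ‖Q s‖ ≤ W η B m :=
  le_csSup ((box_compact η B m).image_of_continuousOn (box_cont η B m hm)).bddAbove (mem_image_of_mem _ hs)

theorem W_attained (η B : ℝ) (hη : 0 ≤ η) (hB : 0 ≤ B) (m : ℕ) (hm : 3 ≤ m) :
    ∃ s ∈ Box η B m, W η B m = ‖Q s‖ := by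
  have hne : (Box η B m).Nonempty := by
    refine ⟨((1 / 2 : ℝ) : ℂ) + (m : ℂ) * I, ?_, ?_⟩
    · simp only [mem_preimage, add_re, ofReal_re, mul_re, natCast_re, natCast_im, I_re, I_im]
      constructor
      · norm_num; linarith
      · norm_num; linarith
    · simp only [mem_preimage, add_im, ofReal_im, mul_im, natCast_re, natCast_im, I_re, I_im]
      constructor <;> norm_num
  exact (box_compact η B m).exists_sSup_image_eq hne (box_cont η B m hm)

theorem W_nonneg (η B : ℝ) (hη : 0 ≤ η) (hB : 0 ≤ B) (m : ℕ) (hm : 3 ≤ m) : 0 ≤ W η B m := by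
  obtain ⟨s, _, h⟩ := W_attained η B hη hB m hm
  rw [h]; exact norm_nonneg _

/-- the integrand -/
noncomputable def hh (η σ θ u : ℝ) : ℝ :=
  ‖Q (((σ + η * Real.cos θ : ℝ) : ℂ) + I * ((u + η * Real.sin θ : ℝ) : ℂ))‖

noncomputable def JJ (η σ : ℝ) (m : ℕ) : ℝ :=
  ∫ θ in (0 : ℝ)..(2 * Real.pi), (∫ u in ((m : ℝ) - 2)..((m : ℝ) + 4), hh η σ θ u)

theorem hh_cont (η σ : ℝ) (hη : 0 < η) (hη1 : η ≤ 1) :
    ContinuousOn (fun p : ℝ × ℝ => hh η σ p.2 p.1) (Ici 2 ×ˢ univ) := by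
  intro p hp
  have h1 : ContinuousAt Q (((σ + η * Real.cos p.2 : ℝ) : ℂ) + I * ((p.1 + η * Real.sin p.2 : ℝ) : ℂ)) := by
    refine (Q_diff _ ?_).continuousAt
    simp only [add_im, ofReal_im, mul_im, I_re, I_im, ofReal_re, zero_mul, one_mul, zero_add]
    have := Real.neg_one_le_sin p.2
    have h2 : (2 : ℝ) ≤ p.1 := hp.1
    nlinarith
  exact (ContinuousAt.comp (g := fun z => ‖Q z‖) (f := fun p : ℝ × ℝ =>
    (((σ + η * Real.cos p.2 : ℝ) : ℂ) + I * ((p.1 + η * Real.sin p.2 : ℝ) : ℂ)))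
    h1.norm (by fun_prop)).continuousWithinAt

theorem hh_int (η σ : ℝ) (hη : 0 < η) (hη1 : η ≤ 1) (a b : ℝ) (ha : 2 ≤ a) :
    Integrable (Function.uncurry fun (u θ : ℝ) => hh η σ θ u)
      ((volume.restrict (Ioc a b)).prod (volume.restrict (Ioc 0 (2 * Real.pi)))) := by
  rw [Measure.prod_restrict]
  have h1 : IntegrableOn (Function.uncurry fun (u θ : ℝ) => hh η σ θ u)
    (Icc a b ×ˢ Icc 0 (2 * Real.pi)) (volume.prod volume) := by
    refine ContinuousOn.integrableOn_compact (isCompact_Icc.prod isCompact_Icc) ?_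
    exact (hh_cont η σ hη hη1).mono (prod_mono (fun x hx => le_trans ha hx.1) (subset_univ _))
  exact h1.mono_set (prod_mono Ioc_subset_Icc_self Ioc_subset_Icc_self)

theorem hh_inner (η σ : ℝ) (hη : 0 < η) (hη1 : η ≤ 1) (a b : ℝ) (ha : 2 ≤ a) (hab : a ≤ b) :
    IntervalIntegrable (fun θ => ∫ u in a..b, hh η σ θ u) volume 0 (2 * Real.pi) := by
  rw [intervalIntegrable_iff_integrableOn_Ioc_of_le (by positivity)]
  simp only [intervalIntegral.integral_of_le hab]
  exact (hh_int η σ hη hη1 a b ha).integral_prod_right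

theorem hh_ii (η σ θ : ℝ) (hη : 0 < η) (hη1 : η ≤ 1) (x y : ℝ) (hx : 2 ≤ x) (hy : 2 ≤ y) :
    IntervalIntegrable (fun u => hh η σ θ u) volume x y := by
  refine ContinuousOn.intervalIntegrable fun u hu => ?_
  have hu2 : (2 : ℝ) ≤ u := by
    have := hu.1
    exact (le_min hx hy).trans this
  have h1 := hh_cont η σ hη hη1 (u, θ) ⟨hu2, mem_univ _⟩
  have h2 : ContinuousWithinAt (fun u : ℝ => ((u, θ) : ℝ × ℝ)) (uIcc x y) u := by fun_prop
  exact ContinuousWithinAt.comp (g := fun p : ℝ × ℝ => hh η σ p.2 p.1) (f := fun u : ℝ => ((u, θ) : ℝ × ℝ))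
    (t := Ici 2 ×ˢ univ) h1 h2 (fun v hv => ⟨(le_min hx hy).trans hv.1, mem_univ _⟩)

/-- the sum over `m` for one line -/
theorem JJ_sum (κ η B : ℝ) (hκ : 0 < κ) (hη : 0 < η) (hη1 : η ≤ 1 / 8) (hB : 2 ≤ B) :
    ∃ C : ℝ, 0 < C ∧ ∀ (σ : ℝ) (M : ℕ), 1 / 2 - 3 * η ≤ σ → σ ≤ B + 2 → 5 ≤ M →
    ∑ m ∈ Finset.Ico 5 M, JJ η σ m ≤ C * (M : ℝ) ^ (1 + κ + 8 * η) := by
  obtain ⟨C, hC, hl⟩ := line_bd κ hκ (4 * η) (by linarith) (by linarith) (B + 3) (by linarith)
  refine ⟨2 * Real.pi * (6 * (C * 2 ^ (1 + κ + 8 * η))), by positivity, fun σ M hσ1 hσ2 hM => ?_⟩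
  have hM' : (5 : ℝ) ≤ M := by exact_mod_cast hM
  unfold JJ
  have hcast : ∀ m ∈ Finset.Ico 5 M, (5 : ℝ) ≤ m := by
    intro m hm
    rw [Finset.mem_Ico] at hm
    exact_mod_cast hm.1
  rw [← intervalIntegral.integral_finsetSum fun m hm => hh_inner η σ hη (by linarith) _ _
    (by have := hcast m hm; linarith) (by linarith)]
  have hpt : ∀ᵐ θ : ℝ, θ ∈ Icc (0 : ℝ) (2 * Real.pi) →
      ∑ m ∈ Finset.Ico 5 M, ∫ u in ((m : ℝ) - 2)..((m : ℝ) + 4), hh η σ θ u ≤
      6 * (C * 2 ^ (1 + κ + 8 * η)) * (M : ℝ) ^ (1 + κ + 8 * η) := by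
    filter_upwards [cos_null (σ - 1 / 2) η hη] with θ hθ _
    have h1 := sum6 (fun u => hh η σ θ u) (fun u => norm_nonneg _) 5 M hM
      (fun x y hx hy => hh_ii η σ θ hη (by linarith) x y (by push_cast at hx; linarith)
        (by push_cast at hy; linarith))
    refine h1.trans ?_
    have hs1 := Real.neg_one_le_sin θ
    have hs2 := Real.sin_le_one θ
    have hc1 := Real.neg_one_le_cos θ
    have hc2 := Real.cos_le_one θ
    have h2 : ∫ u in (((5 : ℕ) : ℝ) - 2)..((M : ℝ) + 3), hh η σ θ u =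
        ∫ v in (((5 : ℕ) : ℝ) - 2 + η * Real.sin θ)..((M : ℝ) + 3 + η * Real.sin θ),
          ‖Q (((σ + η * Real.cos θ : ℝ) : ℂ) + I * (v : ℂ))‖ :=
      intervalIntegral.integral_comp_add_right
        (fun v : ℝ => ‖Q (((σ + η * Real.cos θ : ℝ) : ℂ) + I * (v : ℂ))‖) (η * Real.sin θ)
    rw [h2]
    have h3 := hl (σ + η * Real.cos θ) ((M : ℝ) + 4) (by nlinarith) (by nlinarith)
      (by intro h; apply hθ; linarith) (by linarith)
    have hQc : ContinuousOn (fun v : ℝ => ‖Q (((σ + η * Real.cos θ : ℝ) : ℂ) + I * (v : ℂ))‖)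
        (Icc 1 ((M : ℝ) + 4)) := by
      intro v hv
      have h1 : ContinuousAt Q (((σ + η * Real.cos θ : ℝ) : ℂ) + I * (v : ℂ)) := by
        refine (Q_diff _ ?_).continuousAt
        simp only [add_im, ofReal_im, mul_im, I_re, I_im, ofReal_re, zero_mul, one_mul, zero_add]
        exact hv.1
      exact (ContinuousAt.comp (g := fun z => ‖Q z‖)
        (f := fun v : ℝ => (((σ + η * Real.cos θ : ℝ) : ℂ) + I * (v : ℂ))) h1.norm
        (by fun_prop)).continuousWithinAt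
    have h4 : ∫ v in (((5 : ℕ) : ℝ) - 2 + η * Real.sin θ)..((M : ℝ) + 3 + η * Real.sin θ),
          ‖Q (((σ + η * Real.cos θ : ℝ) : ℂ) + I * (v : ℂ))‖ ≤
        ∫ v in (1 : ℝ)..((M : ℝ) + 4), ‖Q (((σ + η * Real.cos θ : ℝ) : ℂ) + I * (v : ℂ))‖ := by
      refine intervalIntegral.integral_mono_interval (by push_cast; nlinarith) (by push_cast; nlinarith)
        (by nlinarith) (Filter.Eventually.of_forall fun x => norm_nonneg _) ?_
      exact ContinuousOn.intervalIntegrable (by rwa [uIcc_of_le (by linarith)])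
    have h5 : ∫ v in (1 : ℝ)..((M : ℝ) + 4), ‖Q (((σ + η * Real.cos θ : ℝ) : ℂ) + I * (v : ℂ))‖ ≤
        C * ((M : ℝ) + 4) ^ (1 + κ + 2 * (4 * η)) := h3
    have e8 : (1 + κ + 2 * (4 * η)) = 1 + κ + 8 * η := by ring
    rw [e8] at h5
    have h6 : ((M : ℝ) + 4) ^ (1 + κ + 8 * η) ≤ 2 ^ (1 + κ + 8 * η) * (M : ℝ) ^ (1 + κ + 8 * η) := by
      rw [← Real.mul_rpow (by norm_num) (by linarith)]
      gcongr
      linarith
    have h7 : C * ((M : ℝ) + 4) ^ (1 + κ + 8 * η) ≤ C * (2 ^ (1 + κ + 8 * η) * (M : ℝ) ^ (1 + κ + 8 * η)) := by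
      gcongr
    linarith
  have h2pi : (0 : ℝ) ≤ 2 * Real.pi := by positivity
  have hfin := intervalIntegral.integral_mono_ae_restrict (μ := volume) h2pi
    (f := fun θ => ∑ m ∈ Finset.Ico 5 M, ∫ u in ((m : ℝ) - 2)..((m : ℝ) + 4), hh η σ θ u)
    (g := fun _ => 6 * (C * 2 ^ (1 + κ + 8 * η)) * (M : ℝ) ^ (1 + κ + 8 * η)) ?_ intervalIntegrable_const ?_
  · refine hfin.trans (le_of_eq ?_)
    rw [intervalIntegral.integral_const, smul_eq_mul]
    ring
  · have := IntervalIntegrable.sum (s := Finset.Ico 5 M)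
      (f := fun m => fun θ => ∫ u in ((m : ℝ) - 2)..((m : ℝ) + 4), hh η σ θ u)
      (μ := volume) (a := 0) (b := 2 * Real.pi) (fun m hm => hh_inner η σ hη (by linarith) _ _
        (by have := hcast m hm; linarith) (by linarith))
    refine this.congr (fun θ _ => ?_)
    simp
  · exact (ae_restrict_iff' measurableSet_Icc).2 hpt

/-- the sum of the maxima -/
theorem W_sum (κ η B : ℝ) (hκ : 0 < κ) (hη : 0 < η) (hη1 : η ≤ 1 / 8) (hB : 2 ≤ B) :
    ∃ C : ℝ, 0 < C ∧ ∀ M : ℕ, 5 ≤ M → ∑ m ∈ Finset.Ico 5 M, W η B m ≤ C * (M : ℝ) ^ (1 + κ + 8 * η) := by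
  obtain ⟨C, hC, hJ⟩ := JJ_sum κ η B hκ hη hη1 hB
  obtain ⟨N, hN⟩ : ∃ N : ℕ, N = ⌈4 * (B + 2) / η⌉₊ := ⟨_, rfl⟩
  obtain ⟨sg, hsg⟩ : ∃ sg : ℕ → ℝ, sg = fun i : ℕ => min (1 / 2 - 3 * η + (i : ℝ) * (η / 4)) (B + 2) := ⟨_, rfl⟩
  have hB0 : 0 ≤ B := by linarith
  refine ⟨4 / η * Real.pi⁻¹ * ((N + 1) * C), by positivity, fun M hM => ?_⟩
  have key : ∀ m ∈ Finset.Ico 5 M, W η B m ≤ 4 / η * Real.pi⁻¹ * ∑ i ∈ Finset.range (N + 1), JJ η (sg i) m := by
    intro m hm
    rw [Finset.mem_Ico] at hm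
    have hm5 : (5 : ℝ) ≤ m := by exact_mod_cast hm.1
    obtain ⟨w, hw, he⟩ := W_attained η B hη.le hB0 m (by omega)
    rw [he]
    obtain ⟨⟨hw1, hw2⟩, ⟨hw3, hw4⟩⟩ := hw
    obtain ⟨i, hi⟩ : ∃ i : ℕ, i = ⌊(w.re - (1 / 2 - 3 * η)) / (η / 4)⌋₊ := ⟨_, rfl⟩
    have hq0 : 0 ≤ (w.re - (1 / 2 - 3 * η)) / (η / 4) := div_nonneg (by linarith) (by linarith)
    have hi1 : (i : ℝ) * (η / 4) ≤ w.re - (1 / 2 - 3 * η) := by
      have := Nat.floor_le hq0
      rw [← hi, le_div_iff₀ (by linarith)] at this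
      exact this
    have hi2 : w.re - (1 / 2 - 3 * η) < ((i : ℝ) + 1) * (η / 4) := by
      have := Nat.lt_floor_add_one ((w.re - (1 / 2 - 3 * η)) / (η / 4))
      rw [← hi, div_lt_iff₀ (by linarith)] at this
      exact this
    have hiN : i ≤ N := by
      have h1 : (i : ℝ) ≤ 4 * (B + 2) / η := by
        rw [le_div_iff₀ hη]
        nlinarith
      have h2 : (i : ℝ) ≤ (N : ℝ) := by
        rw [hN]
        exact h1.trans (Nat.le_ceil _)
      exact_mod_cast h2
    have hsgi : sg i = 1 / 2 - 3 * η + i * (η / 4) := by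
      rw [hsg]
      simp only
      exact min_eq_left (by linarith)
    have hbox := val_le_box (G := Q) (w := w) (r := η) (σ := sg i) (t := w.im) (δ := η / 4) hη (by linarith)
      (by linarith) Q_diff (by
        intro u hu
        have h1 := Complex.norm_le_abs_re_add_abs_im (w - ((sg i : ℂ) + I * (u : ℂ)))
        simp only [sub_re, add_re, ofReal_re, mul_re, I_re, I_im, ofReal_im, sub_im, add_im, mul_im,
          zero_mul, one_mul, mul_zero, sub_self, add_zero, zero_add] at h1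
        rw [hsgi] at h1 ⊢
        have h2 : |w.re - (1 / 2 - 3 * η + i * (η / 4))| ≤ η / 4 := by
          rw [abs_le]; constructor <;> linarith
        have h3 : |w.im - u| ≤ η / 4 := by
          rw [abs_le]; constructor <;> linarith [hu.1, hu.2]
        linarith)
    have hint : ∫ θ in (0 : ℝ)..(2 * Real.pi), (∫ u in w.im..(w.im + η / 4), hh η (sg i) θ u) ≤ JJ η (sg i) m := by
      unfold JJ
      refine intervalIntegral.integral_mono_on (by positivity)
        (hh_inner η (sg i) hη (by linarith) _ _ (by linarith) (by linarith))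
        (hh_inner η (sg i) hη (by linarith) _ _ (by linarith) (by linarith)) fun θ _ => ?_
      exact intervalIntegral.integral_mono_interval (by linarith) (by linarith) (by linarith)
        (Filter.Eventually.of_forall fun x => norm_nonneg _)
        (hh_ii η (sg i) θ hη (by linarith) _ _ (by linarith) (by linarith))
    have hJ0 : ∀ j ∈ Finset.range (N + 1), 0 ≤ JJ η (sg j) m := by
      intro j _
      unfold JJ
      refine intervalIntegral.integral_nonneg (by positivity) fun θ _ => ?_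
      exact intervalIntegral.integral_nonneg (by linarith) fun u _ => norm_nonneg _
    have hs := Finset.single_le_sum hJ0 (Finset.mem_range.2 (by omega : i < N + 1))
    have h1 : η / 4 * ‖Q w‖ ≤ Real.pi⁻¹ * ∑ j ∈ Finset.range (N + 1), JJ η (sg j) m := by
      refine hbox.trans ?_
      have hpi : (0 : ℝ) ≤ Real.pi⁻¹ := by positivity
      exact mul_le_mul_of_nonneg_left (hint.trans hs) hpi
    calc ‖Q w‖ = 4 / η * (η / 4 * ‖Q w‖) := by field_simp
      _ ≤ 4 / η * (Real.pi⁻¹ * ∑ j ∈ Finset.range (N + 1), JJ η (sg j) m) := by gcongr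
      _ = _ := by ring
  refine (Finset.sum_le_sum key).trans ?_
  rw [← Finset.mul_sum, Finset.sum_comm, mul_assoc (4 / η * Real.pi⁻¹)]
  refine mul_le_mul_of_nonneg_left ?_ (by positivity)
  have h1 : ∀ i ∈ Finset.range (N + 1), ∑ m ∈ Finset.Ico 5 M, JJ η (sg i) m ≤ C * (M : ℝ) ^ (1 + κ + 8 * η) := by
    intro i _
    refine hJ (sg i) M ?_ ?_ hM
    · rw [hsg]
      simp only
      refine le_min ?_ (by linarith)
      have : (0 : ℝ) ≤ i * (η / 4) := by positivity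
      linarith
    · rw [hsg]
      exact min_le_right _ _
  refine (Finset.sum_le_sum h1).trans (le_of_eq ?_)
  rw [Finset.sum_const, Finset.card_range, nsmul_eq_mul]
  push_cast
  ring

end Pool.Agent.V8H35.AP
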