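import Pool.Agent.V8H35.LV.FZ

set_option autoImplicit false

/-! Maxima of a holomorphic function on boxes, by means over circles and vertical lines. -/

namespace Pool.Agent.V8H35.AP

open Complex Metric Set MeasureTheory intervalIntegral

/-- mean square of zeta on the lines near and to the right of the critical line -/
theorem line_bd (κ : ℝ) (hκ : 0 < κ) (θ : ℝ) (hθ : 0 ≤ θ) (hθ1 : θ ≤ 1 / 2) (B : ℝ) (hB : 2 ≤ B) :
    ∃ C : ℝ, 0 < C ∧ ∀ σ X : ℝ, 1 / 2 - θ ≤ σ → σ ≤ B → σ ≠ 1 / 2 → 1 ≤ X →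
    ∫ v in (1 : ℝ)..X, ‖riemannZeta ((σ : ℂ) + I * (v : ℂ)) ^ 2‖ ≤ C * X ^ (1 + κ + 2 * θ) := by
  obtain ⟨C1, hC1, h1⟩ := Pool.Agent.V8H35.LV.ZLs κ hκ
  obtain ⟨C2, hC2, h2⟩ := Pool.Agent.H448R2.GC.X1.zeta_bdd
  obtain ⟨K, hK, hX⟩ := H345.Chi.XX_size
  refine ⟨C1 + C2 ^ 2 + Real.exp K ^ 2 * C1, by positivity, fun σ X hσ1 hσ2 hσ3 hX1 => ?_⟩
  have hX0 : 0 < X := by linarith
  have hXp : (1 : ℝ) ≤ X ^ (1 + κ + 2 * θ) := Real.one_le_rpow hX1 (by linarith)
  have hXp1 : X ≤ X ^ (1 + κ + 2 * θ) := by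
    calc X = X ^ (1 : ℝ) := (Real.rpow_one X).symm
      _ ≤ _ := Real.rpow_le_rpow_of_exponent_le hX1 (by linarith)
  have hXp2 : X ^ (1 + κ) ≤ X ^ (1 + κ + 2 * θ) := Real.rpow_le_rpow_of_exponent_le hX1 (by linarith)
  have hXp0 : 0 < X ^ (1 + κ + 2 * θ) := by positivity
  have hcz : ∀ τ : ℝ, ContinuousOn (fun x : ℝ => ‖riemannZeta ((τ : ℂ) + I * (x : ℂ))‖ ^ 2) (Icc 1 X) := by
    intro τ x hx
    have h0 : ((τ : ℂ) + I * (x : ℂ)) ≠ 1 := by
      intro h
      have := congrArg Complex.im h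
      simp at this
      linarith [hx.1]
    have h1 : ContinuousAt riemannZeta ((τ : ℂ) + I * (x : ℂ)) :=
      (differentiableAt_riemannZeta h0).continuousAt
    exact (ContinuousAt.comp (g := fun z => ‖riemannZeta z‖ ^ 2)
      (f := fun x : ℝ => ((τ : ℂ) + I * (x : ℂ)))
      (h1.norm.pow 2) (by fun_prop)).continuousWithinAt
  have hii : ∀ τ : ℝ, IntervalIntegrable (fun x : ℝ => ‖riemannZeta ((τ : ℂ) + I * (x : ℂ))‖ ^ 2) volume 1 X :=
    fun τ => ContinuousOn.intervalIntegrable (by rw [uIcc_of_le hX1]; exact hcz τ)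
  simp only [norm_pow]
  have hsplit : (C1 + C2 ^ 2 + Real.exp K ^ 2 * C1) * X ^ (1 + κ + 2 * θ) = C1 * X ^ (1 + κ + 2 * θ) +
      C2 ^ 2 * X ^ (1 + κ + 2 * θ) + Real.exp K ^ 2 * C1 * X ^ (1 + κ + 2 * θ) := by ring
  have p1 : 0 ≤ C1 * X ^ (1 + κ + 2 * θ) := by positivity
  have p2 : 0 ≤ C2 ^ 2 * X ^ (1 + κ + 2 * θ) := by positivity
  have p3 : 0 ≤ Real.exp K ^ 2 * C1 * X ^ (1 + κ + 2 * θ) := by positivity
  rw [hsplit]
  rcases lt_or_gt_of_ne hσ3 with hlt | hgt
  · -- to the left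
    have hpt : ∀ v ∈ Icc (1 : ℝ) X, ‖riemannZeta ((σ : ℂ) + I * (v : ℂ))‖ ^ 2 ≤
        (Real.exp K * X ^ θ) ^ 2 * ‖riemannZeta (((1 - σ : ℝ) : ℂ) + I * (v : ℂ))‖ ^ 2 := by
      intro v hv
      have hv0 : 0 < v := by linarith [hv.1]
      set w : ℂ := ((1 - σ : ℝ) : ℂ) + I * (v : ℂ) with hw
      have hre : w.re = 1 - σ := by
        rw [hw]; simp
      have him : w.im = v := by
        rw [hw]; simp
      have e1 : ((σ : ℂ) + I * (v : ℂ)) = (starRingEnd ℂ) (1 - w) := by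
        apply Complex.ext
        · rw [Complex.conj_re, Complex.sub_re, hre]; simp
        · rw [Complex.conj_im, Complex.sub_im, him]; simp
      have hw1 : w ≠ 1 := by
        intro h
        have := congrArg Complex.im h
        rw [him] at this
        simp at this
        linarith
      rw [e1, riemannZeta_conj, RCLike.norm_conj,
        Pool.Agent.H448R2.GC.zeta_fe w (by rw [hre]; linarith) hw1, norm_mul, ← mul_pow,
        Pool.Agent.H448R2.GC.X1.XX_eq]
      have h3 := (hX w (by rw [hre]; linarith) (by rw [hre]; linarith) (by rw [him]; exact hv.1)).2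
      rw [him, hre] at h3
      have h4 : v ^ (1 - σ - 1 / 2) ≤ X ^ θ := by
        calc v ^ (1 - σ - 1 / 2) ≤ X ^ (1 - σ - 1 / 2) := Real.rpow_le_rpow hv0.le hv.2 (by linarith)
          _ ≤ X ^ θ := Real.rpow_le_rpow_of_exponent_le hX1 (by linarith)
      have h5 : ‖H345.XX w‖ ≤ Real.exp K * X ^ θ := h3.trans (by gcongr)
      gcongr
    have h6 := intervalIntegral.integral_mono_on hX1 (hii σ) ((hii (1 - σ)).const_mul _) hpt
    rw [intervalIntegral.integral_const_mul] at h6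
    have h7 := h1 (1 - σ) X (by linarith) (by linarith) hX1
    have e2 : (((1 - σ : ℝ) : ℂ)) = 1 - (σ : ℂ) := by push_cast; ring
    have h8 : (X ^ θ) ^ 2 * X ^ (1 + κ) = X ^ (1 + κ + 2 * θ) := by
      rw [← Real.rpow_natCast (X ^ θ), ← Real.rpow_mul hX0.le, ← Real.rpow_add hX0]
      congr 1; push_cast; ring
    calc ∫ v in (1 : ℝ)..X, ‖riemannZeta ((σ : ℂ) + I * (v : ℂ))‖ ^ 2
        ≤ (Real.exp K * X ^ θ) ^ 2 * ∫ v in (1 : ℝ)..X, ‖riemannZeta (((1 - σ : ℝ) : ℂ) + I * (v : ℂ))‖ ^ 2 := h6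
      _ ≤ (Real.exp K * X ^ θ) ^ 2 * (C1 * X ^ (1 + κ)) := by gcongr
      _ = Real.exp K ^ 2 * C1 * ((X ^ θ) ^ 2 * X ^ (1 + κ)) := by ring
      _ = Real.exp K ^ 2 * C1 * X ^ (1 + κ + 2 * θ) := by rw [h8]
      _ ≤ _ := by linarith
  · rcases le_or_gt σ 2 with h2' | h2'
    · have h3 := h1 σ X hgt h2' hX1
      have : C1 * X ^ (1 + κ) ≤ C1 * X ^ (1 + κ + 2 * θ) := by gcongr
      linarith
    · have hpt : ∀ v ∈ Icc (1 : ℝ) X, ‖riemannZeta ((σ : ℂ) + I * (v : ℂ))‖ ^ 2 ≤ C2 ^ 2 := by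
        intro v _
        have := h2 ((σ : ℂ) + I * (v : ℂ)) (by simp; linarith)
        gcongr
      have h6 := intervalIntegral.integral_mono_on hX1 (hii σ) intervalIntegrable_const hpt
      rw [intervalIntegral.integral_const, smul_eq_mul] at h6
      have : (X - 1) * C2 ^ 2 ≤ C2 ^ 2 * X ^ (1 + κ + 2 * θ) := by
        have : X - 1 ≤ X ^ (1 + κ + 2 * θ) := by linarith
        calc (X - 1) * C2 ^ 2 ≤ X ^ (1 + κ + 2 * θ) * C2 ^ 2 := by gcongr
          _ = _ := by ring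
      linarith

/-- Cauchy's formula: the value at `w` by the mean over a circle around a near point -/
theorem val_le_avg {G : ℂ → ℂ} {z w : ℂ} {r : ℝ} (hr : 0 < r)
    (hG : DifferentiableOn ℂ G (closedBall z r)) (hw : ‖w - z‖ ≤ r / 2) :
    ‖G w‖ ≤ Real.pi⁻¹ * ∫ θ in (0 : ℝ)..(2 * Real.pi), ‖G (circleMap z r θ)‖ := by
  have hwm : w ∈ ball z r := by rw [mem_ball, dist_eq_norm]; linarith
  have h2 := Complex.two_pi_I_inv_smul_circleIntegral_sub_inv_smul_of_differentiable_on_off_countable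
    (s := ∅) countable_empty hwm hG.continuousOn (fun x hx => by
      have : x ∈ ball z r := hx.1
      exact hG.differentiableAt (closedBall_mem_nhds_of_mem this))
  have h3 : ‖(2 * Real.pi * I : ℂ)⁻¹‖ = (2 * Real.pi)⁻¹ := by
    rw [norm_inv, norm_mul, norm_mul, Complex.norm_I, Complex.norm_real,
      Real.norm_of_nonneg Real.pi_pos.le, mul_one]
    norm_num
  have hcont : ContinuousOn G (sphere z r) := hG.continuousOn.mono sphere_subset_closedBall
  have hc2 : Continuous fun θ : ℝ => ‖G (circleMap z r θ)‖ := by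
    refine (hcont.comp_continuous (continuous_circleMap z r) fun θ => circleMap_mem_sphere z hr.le θ).norm
  have h4 : ‖∮ u in C(z, r), (u - w)⁻¹ • G u‖ ≤
      ∫ θ in (0 : ℝ)..(2 * Real.pi), 2 * ‖G (circleMap z r θ)‖ := by
    unfold circleIntegral
    refine (intervalIntegral.norm_integral_le_integral_norm (by positivity)).trans ?_
    refine intervalIntegral.integral_mono_on (by positivity) ?_ ((hc2.const_mul 2).intervalIntegrable _ _)
      fun θ _ => ?_
    · refine Continuous.intervalIntegrable ?_ _ _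
      have hne : ∀ θ : ℝ, circleMap z r θ - w ≠ 0 := by
        intro θ h
        have h5 := circleMap_mem_sphere z hr.le θ
        rw [sub_eq_zero.1 h, mem_sphere, dist_eq_norm] at h5
        linarith
      have hg : Continuous fun θ : ℝ => G (circleMap z r θ) :=
        hcont.comp_continuous (continuous_circleMap z r) fun θ => circleMap_mem_sphere z hr.le θ
      have hd : Continuous fun θ : ℝ => deriv (circleMap z r) θ := by
        simp only [deriv_circleMap]
        exact (continuous_circleMap 0 r).mul continuous_const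
      exact (hd.smul ((((continuous_circleMap z r).sub continuous_const).inv₀ hne).smul hg)).norm
    · have h5 : r / 2 ≤ ‖circleMap z r θ - w‖ := by
        have h6 := circleMap_mem_sphere z hr.le θ
        rw [mem_sphere, dist_eq_norm] at h6
        have h7 := norm_sub_norm_le (circleMap z r θ - z) (w - z)
        rw [sub_sub_sub_cancel_right] at h7
        linarith
      rw [deriv_circleMap, norm_smul, norm_smul, norm_mul, Complex.norm_I, mul_one, norm_circleMap_zero,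
        abs_of_pos hr, norm_inv, ← mul_assoc]
      have h6 : r * ‖circleMap z r θ - w‖⁻¹ ≤ 2 := by
        rw [← div_eq_mul_inv, div_le_iff₀ (by linarith)]
        linarith
      gcongr
  rw [intervalIntegral.integral_const_mul] at h4
  rw [← h2, norm_smul, h3]
  calc (2 * Real.pi)⁻¹ * ‖∮ u in C(z, r), (u - w)⁻¹ • G u‖
      ≤ (2 * Real.pi)⁻¹ * (2 * ∫ θ in (0 : ℝ)..(2 * Real.pi), ‖G (circleMap z r θ)‖) := by gcongr
    _ = _ := by
      have := Real.pi_pos
      rw [mul_inv]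
      ring

theorem cm_split (x y r θ : ℝ) : circleMap ((x : ℂ) + I * (y : ℂ)) r θ =
    ((x + r * Real.cos θ : ℝ) : ℂ) + I * ((y + r * Real.sin θ : ℝ) : ℂ) := by
  rw [circleMap, Complex.exp_mul_I]
  push_cast
  ring

/-- the mean over a vertical segment of the means over circles -/
theorem val_le_box {G : ℂ → ℂ} {w : ℂ} {r σ t δ : ℝ} (hr : 0 < r) (hδ : 0 < δ) (ht : 1 + r ≤ t)
    (hG : ∀ z : ℂ, 1 ≤ z.im → DifferentiableAt ℂ G z)
    (hw : ∀ u ∈ Icc t (t + δ), ‖w - ((σ : ℂ) + I * (u : ℂ))‖ ≤ r / 2) :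
    δ * ‖G w‖ ≤ Real.pi⁻¹ * ∫ θ in (0 : ℝ)..(2 * Real.pi), (∫ u in t..(t + δ),
      ‖G (((σ + r * Real.cos θ : ℝ) : ℂ) + I * ((u + r * Real.sin θ : ℝ) : ℂ))‖) := by
  have hab : t ≤ t + δ := by linarith
  have h2pi : (0 : ℝ) ≤ 2 * Real.pi := by positivity
  have hpt : ∀ u ∈ Icc t (t + δ), ‖G w‖ ≤ Real.pi⁻¹ * ∫ θ in (0 : ℝ)..(2 * Real.pi),
      ‖G (((σ + r * Real.cos θ : ℝ) : ℂ) + I * ((u + r * Real.sin θ : ℝ) : ℂ))‖ := by
    intro u hu
    have h1 := val_le_avg (G := G) (z := (σ : ℂ) + I * (u : ℂ)) (w := w) hr (by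
      intro z hz
      refine (hG z ?_).differentiableWithinAt
      rw [mem_closedBall, dist_eq_norm] at hz
      have h2 := (abs_le.1 ((Complex.abs_im_le_norm _).trans hz)).1
      simp at h2
      linarith [hu.1]) (hw u hu)
    simp only [cm_split] at h1
    exact h1
  have hcont : ContinuousOn (fun p : ℝ × ℝ =>
      ‖G (((σ + r * Real.cos p.2 : ℝ) : ℂ) + I * ((p.1 + r * Real.sin p.2 : ℝ) : ℂ))‖)
      (Icc t (t + δ) ×ˢ univ) := by
    intro p hp
    have h1 : ContinuousAt G (((σ + r * Real.cos p.2 : ℝ) : ℂ) + I * ((p.1 + r * Real.sin p.2 : ℝ) : ℂ)) := by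
      refine (hG _ ?_).continuousAt
      simp only [add_im, ofReal_im, mul_im, I_re, I_im, ofReal_re, zero_mul, one_mul, zero_add]
      have := Real.neg_one_le_sin p.2
      have h2 := hp.1.1
      nlinarith
    exact (ContinuousAt.comp (g := fun z => ‖G z‖) (f := fun p : ℝ × ℝ =>
      (((σ + r * Real.cos p.2 : ℝ) : ℂ) + I * ((p.1 + r * Real.sin p.2 : ℝ) : ℂ)))
      h1.norm (by fun_prop)).continuousWithinAt
  have hint : Integrable (Function.uncurry fun (u θ : ℝ) =>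
      ‖G (((σ + r * Real.cos θ : ℝ) : ℂ) + I * ((u + r * Real.sin θ : ℝ) : ℂ))‖)
      ((volume.restrict (Ioc t (t + δ))).prod (volume.restrict (Ioc 0 (2 * Real.pi)))) := by
    rw [Measure.prod_restrict]
    have h1 : IntegrableOn (Function.uncurry fun (u θ : ℝ) =>
      ‖G (((σ + r * Real.cos θ : ℝ) : ℂ) + I * ((u + r * Real.sin θ : ℝ) : ℂ))‖)
      (Icc t (t + δ) ×ˢ Icc 0 (2 * Real.pi)) (volume.prod volume) := by
      refine ContinuousOn.integrableOn_compact (isCompact_Icc.prod isCompact_Icc) ?_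
      exact hcont.mono (prod_mono le_rfl (subset_univ _))
    exact h1.mono_set (prod_mono Ioc_subset_Icc_self Ioc_subset_Icc_self)
  have hswap : ∫ u in t..(t + δ), (∫ θ in (0 : ℝ)..(2 * Real.pi),
        ‖G (((σ + r * Real.cos θ : ℝ) : ℂ) + I * ((u + r * Real.sin θ : ℝ) : ℂ))‖) =
      ∫ θ in (0 : ℝ)..(2 * Real.pi), (∫ u in t..(t + δ),
        ‖G (((σ + r * Real.cos θ : ℝ) : ℂ) + I * ((u + r * Real.sin θ : ℝ) : ℂ))‖) := by
    simp only [intervalIntegral.integral_of_le hab, intervalIntegral.integral_of_le h2pi]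
    exact integral_integral_swap hint
  have hI1 : IntervalIntegrable (fun u => ∫ θ in (0 : ℝ)..(2 * Real.pi),
        ‖G (((σ + r * Real.cos θ : ℝ) : ℂ) + I * ((u + r * Real.sin θ : ℝ) : ℂ))‖) volume t (t + δ) := by
    rw [intervalIntegrable_iff_integrableOn_Ioc_of_le hab]
    simp only [intervalIntegral.integral_of_le h2pi]
    exact hint.integral_prod_left
  have h1 := intervalIntegral.integral_mono_on hab (μ := volume) (intervalIntegrable_const (c := ‖G w‖))
    (hI1.const_mul Real.pi⁻¹) hpt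
  rw [intervalIntegral.integral_const, smul_eq_mul, intervalIntegral.integral_const_mul, hswap] at h1
  have e : t + δ - t = δ := by ring
  rw [e] at h1
  exact h1

end Pool.Agent.V8H35.AP
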