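import Pool.Agent.V8H35.AP.EX

set_option autoImplicit false

/-! The number of close pairs for almost every value: the mean. -/

namespace Pool.Agent.V8H35.AP

open Complex Metric Set MeasureTheory Filter Topology Asymptotics
open scoped ENNReal

/-- solutions in a box -/
def AS (a : ℂ) (B m : ℕ) : Set ℂ := {s | riemannZeta s = a ∧ 0 ≤ s.re ∧ s.re ≤ B ∧ (m : ℝ) ≤ s.im ∧
  s.im ≤ (m : ℝ) + 1}

theorem as_card (a : ℂ) (ha : a ≠ 1) (B : ℕ) : ∃ N m₁ : ℕ, ∀ m : ℕ, m₁ ≤ m → ∀ Z : Finset ℂ,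
    (∀ s ∈ Z, s ∈ AS a B m) → (Z.card : ℝ) ≤ 2 * ((N : ℝ) + 1) * Real.log m := by
  obtain ⟨d, hd⟩ : ∃ d : ℝ, d = ‖a - 1‖ := ⟨_, rfl⟩
  have hd0 : 0 < d := by rw [hd]; exact norm_pos_iff.2 (sub_ne_zero.2 ha)
  obtain ⟨k, hk⟩ : ∃ k : ℕ, (1 / 2 : ℝ) ^ k < d / 2 := by
    have h2 : Tendsto (fun n : ℕ => ((1 / 2 : ℝ)) ^ n) atTop (nhds 0) :=
      tendsto_pow_atTop_nhds_zero_of_lt_one (by norm_num) (by norm_num)
    exact (h2.eventually (gt_mem_nhds (by positivity))).exists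
  obtain ⟨B₁, hB₁⟩ : ∃ B₁ : ℕ, B₁ = B + k := ⟨_, rfl⟩
  have hBB : (B : ℝ) ≤ B₁ := by exact_mod_cast (by omega : B ≤ B₁)
  have hB0 : (0 : ℝ) ≤ B := Nat.cast_nonneg _
  obtain ⟨C, hC, hp⟩ := poly (2 * B₁ + 8)
  obtain ⟨N, hN⟩ : ∃ N : ℕ, N = 2 * B₁ + 8 + 2 := ⟨_, rfl⟩
  rw [← hN] at hp
  refine ⟨N, ⌈2 / d * (C * 2 ^ N + ‖a‖)⌉₊ + (3 * B₁ + 20), fun m hm Z hZ => ?_⟩
  have hm1 : (3 : ℝ) * B₁ + 20 ≤ m := by exact_mod_cast (by omega : 3 * B₁ + 20 ≤ m)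
  have hm2 : 2 / d * (C * 2 ^ N + ‖a‖) ≤ m := by
    refine (Nat.le_ceil _).trans ?_
    exact_mod_cast (by omega : ⌈2 / d * (C * 2 ^ N + ‖a‖)⌉₊ ≤ m)
  have hm0 : (1 : ℝ) ≤ m := by linarith
  obtain ⟨c, hc⟩ : ∃ c : ℂ, c = ((B₁ + 2 : ℝ) : ℂ) + ((m : ℝ) : ℂ) * I := ⟨_, rfl⟩
  have hcr : c.re = B₁ + 2 := by rw [hc]; simp
  have hci : c.im = m := by rw [hc]; simp
  have hb : ∀ z ∈ ball c (3 * (B₁ : ℝ) + 10), -((2 * B₁ + 8 : ℕ) : ℝ) ≤ z.re ∧ 1 ≤ z.im ∧ z.im ≤ 2 * m := by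
    intro z hz
    rw [mem_ball, dist_eq_norm] at hz
    have h1 := abs_lt.1 ((Complex.abs_re_le_norm _).trans_lt hz)
    have h2 := abs_lt.1 ((Complex.abs_im_le_norm _).trans_lt hz)
    rw [sub_re, hcr] at h1
    rw [sub_im, hci] at h2
    push_cast
    refine ⟨by linarith, by linarith, by linarith⟩
  have h2d : ‖((2 / d : ℝ) : ℂ)‖ = 2 / d := by
    rw [Complex.norm_real, Real.norm_of_nonneg (by positivity)]
  have hcard := Pool.Agent.V8H35.LV.zeros_card (c := c) (r := (B₁ : ℝ) + 3) (R := 3 * (B₁ : ℝ) + 9)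
    (R1 := 3 * (B₁ : ℝ) + 10) (by linarith) (by linarith) (by linarith)
    (f := fun z => ((2 / d : ℝ) : ℂ) * (riemannZeta z - a)) (M := (m : ℝ) ^ (N + 1))
    (fun z hz => (((z_diff z (by linarith [(hb z hz).2.1])).sub_const a).const_mul _).differentiableWithinAt) (by
      intro z hz
      rw [norm_mul, h2d]
      obtain ⟨h1, h2, h3⟩ := hb z (by rw [mem_sphere] at hz; rw [mem_ball, hz]; linarith)
      have h4 := hp z h1 (by rw [abs_of_pos (by linarith)]; exact h2)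
      rw [abs_of_pos (by linarith)] at h4
      have h5 : ‖riemannZeta z - a‖ ≤ C * (2 * (m : ℝ)) ^ N + ‖a‖ := by
        refine (norm_sub_le _ _).trans ?_
        have : z.im ^ N ≤ (2 * (m : ℝ)) ^ N := by gcongr
        have : C * z.im ^ N ≤ C * (2 * (m : ℝ)) ^ N := by gcongr
        linarith
      have h6 : C * (2 * (m : ℝ)) ^ N + ‖a‖ ≤ (C * 2 ^ N + ‖a‖) * (m : ℝ) ^ N := by
        rw [mul_pow]
        have : (1 : ℝ) ≤ (m : ℝ) ^ N := one_le_pow₀ hm0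
        have := norm_nonneg a
        nlinarith
      calc 2 / d * ‖riemannZeta z - a‖ ≤ 2 / d * ((C * 2 ^ N + ‖a‖) * (m : ℝ) ^ N) := by
            gcongr
            exact h5.trans h6
        _ = (2 / d * (C * 2 ^ N + ‖a‖)) * (m : ℝ) ^ N := by ring
        _ ≤ m * (m : ℝ) ^ N := by gcongr
        _ = _ := by ring) (by
      rw [norm_mul, h2d]
      have h1 := right_one c (by rw [hcr]; linarith)
      rw [hcr] at h1
      have hp1 := Real.pi_lt_d2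
      have hp0 := Real.pi_gt_three
      have hc1 : Real.pi ^ 2 / 6 - 1 ≤ 1 := by nlinarith
      have e : (2 : ℝ) ^ (2 - (B₁ + 2 : ℝ)) = (1 / 2 : ℝ) ^ B₁ := by
        rw [show (2 - (B₁ + 2 : ℝ)) = -(B₁ : ℝ) by ring, Real.rpow_neg (by norm_num), Real.rpow_natCast, one_div,
          inv_pow]
      rw [e] at h1
      have h3 : (1 / 2 : ℝ) ^ B₁ ≤ (1 / 2 : ℝ) ^ k := pow_le_pow_of_le_one (by norm_num) (by norm_num) (by omega)
      have h4 : (1 / 2 : ℝ) ^ B₁ * (Real.pi ^ 2 / 6 - 1) ≤ (1 / 2 : ℝ) ^ B₁ * 1 := by gcongr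
      have h5 := norm_sub_norm_le (a - 1) (riemannZeta c - 1)
      rw [sub_sub_sub_cancel_right, ← hd, norm_sub_rev a (riemannZeta c)] at h5
      have h6 : d / 2 ≤ ‖riemannZeta c - a‖ := by linarith
      calc (1 : ℝ) = 2 / d * (d / 2) := by field_simp
        _ ≤ _ := by gcongr) Z (by
      intro s hs
      obtain ⟨h1, h2, h3, h4, h5⟩ := hZ s hs
      refine ⟨?_, by rw [h1, sub_self, mul_zero]⟩
      refine (Complex.norm_le_abs_re_add_abs_im _).trans ?_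
      rw [sub_re, sub_im, hcr, hci]
      have a1 : |s.re - (B₁ + 2)| ≤ B₁ + 2 := abs_le.2 ⟨by linarith, by linarith⟩
      have a2 : |s.im - m| ≤ 1 := abs_le.2 ⟨by linarith, by linarith⟩
      linarith)
  rw [Real.log_pow] at hcard
  refine hcard.trans (le_of_eq ?_)
  push_cast
  ring

theorem as_fin (a : ℂ) (ha : a ≠ 1) (B : ℕ) : ∃ N m₁ : ℕ, ∀ m : ℕ, m₁ ≤ m → (AS a B m).Finite ∧
    ((AS a B m).ncard : ℝ) ≤ 2 * ((N : ℝ) + 1) * Real.log m := by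
  obtain ⟨N, m₁, h⟩ := as_card a ha B
  refine ⟨N, m₁, fun m hm => ?_⟩
  have hfin : (AS a B m).Finite := by
    by_contra hinf
    have hinf' : (AS a B m).Infinite := hinf
    obtain ⟨t, ht1, ht2⟩ := hinf'.exists_subset_card_eq (⌊2 * ((N : ℝ) + 1) * Real.log m⌋₊ + 1)
    have h1 := h m hm t (fun x hx => ht1 hx)
    rw [ht2] at h1
    have h2 := Nat.lt_floor_add_one (2 * ((N : ℝ) + 1) * Real.log m)
    push_cast at h1
    linarith
  refine ⟨hfin, ?_⟩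
  rw [Set.ncard_eq_toFinset_card _ hfin]
  exact h m hm _ fun x hx => hfin.mem_toFinset.1 hx

/-- radius around a critical value -/
noncomputable def rad (q e η : ℝ) (B m : ℕ) : ℝ := 16 / η ^ 2 * √(W η B m) * ((m : ℝ) ^ (-q + e)) ^ 2

theorem rad_nonneg (q e η : ℝ) (B m : ℕ) : 0 ≤ rad q e η B m := by unfold rad; positivity

/-- number of the critical points near whose critical value `a` is -/
noncomputable def nn (q e η : ℝ) (B j : ℕ) (a : ℂ) : ℝ≥0∞ :=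
  ∑ m ∈ Finset.Ico (2 ^ j) (2 ^ (j + 2)), ∑ c ∈ Crit B m,
    (closedBall (riemannZeta c) (rad q e η B m)).indicator (fun _ => (1 : ℝ≥0∞)) a

theorem nn_meas (q e η : ℝ) (B j : ℕ) : Measurable (nn q e η B j) := by
  unfold nn
  refine Finset.measurable_sum _ fun m _ => Finset.measurable_sum _ fun c _ => ?_
  exact measurable_const.indicator measurableSet_closedBall

theorem nn_lint (q e η : ℝ) (B j : ℕ) : ∫⁻ a, nn q e η B j a =
    ∑ m ∈ Finset.Ico (2 ^ j) (2 ^ (j + 2)), ∑ c ∈ Crit B m, ENNReal.ofReal (Real.pi * rad q e η B m ^ 2) := by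
  unfold nn
  rw [lintegral_finsetSum _ fun m _ => Finset.measurable_sum _ fun c _ =>
    measurable_const.indicator measurableSet_closedBall]
  refine Finset.sum_congr rfl fun m _ => ?_
  rw [lintegral_finsetSum _ fun c _ => measurable_const.indicator measurableSet_closedBall]
  refine Finset.sum_congr rfl fun c _ => ?_
  rw [lintegral_indicator_const measurableSet_closedBall, one_mul, Complex.volume_closedBall,
    ENNReal.ofReal_mul Real.pi_pos.le, ENNReal.ofReal_pow (rad_nonneg _ _ _ _ _), mul_comm]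
  congr 1
  rw [← NNReal.coe_real_pi, ENNReal.ofReal_coe_nnreal]

/-- the mean of `nn` -/
theorem nn_mean (q e : ℝ) (he : 0 < e) (he1 : e ≤ 1) (hq : e ≤ q) (B : ℕ) (hB : 2 ≤ B) :
    ∃ K : ℝ, 0 < K ∧ ∃ j₀ : ℕ, ∀ j : ℕ, j₀ ≤ j →
    ∫⁻ a, nn q e (e / 8) B j a ≤ ENNReal.ofReal (K * (2 : ℝ) ^ ((1 - 4 * q + 7 * e) * j)) := by
  obtain ⟨η, hη⟩ : ∃ η : ℝ, η = e / 8 := ⟨_, rfl⟩
  rw [← hη]
  have hη0 : 0 < η := by rw [hη]; positivity
  have hη1 : η ≤ 1 / 8 := by rw [hη]; linarith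
  have hB' : (2 : ℝ) ≤ B := by exact_mod_cast hB
  obtain ⟨C, hC, hcr⟩ := crit_spec B
  obtain ⟨C', hC', hS⟩ := W_sum e η B he hη0 hη1 hB'
  have ee : 1 + e + 8 * η = 1 + 2 * e := by rw [hη]; ring
  rw [ee] at hS
  refine ⟨Real.pi * (16 / η ^ 2) ^ 2 * (C * (1 / e) * 4 ^ e) * (C' * 4 ^ (1 + 2 * e)), by positivity,
    6 * B + 60, fun j hj => ?_⟩
  have hj2 : j < 2 ^ j := Nat.lt_two_pow_self
  have hm : ∀ m ∈ Finset.Ico (2 ^ j) (2 ^ (j + 2)), 6 * B + 60 ≤ m ∧ (2 : ℝ) ^ j ≤ m ∧ (m : ℝ) ≤ 4 * 2 ^ j := by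
    intro m hm
    rw [Finset.mem_Ico] at hm
    refine ⟨by omega, by exact_mod_cast hm.1, ?_⟩
    have h1 : (m : ℝ) ≤ ((2 ^ (j + 2) : ℕ) : ℝ) := by exact_mod_cast hm.2.le
    push_cast at h1
    rw [pow_add] at h1
    linarith
  have h2j : (1 : ℝ) ≤ 2 ^ j := one_le_pow₀ (by norm_num)
  have hcard : ∀ m ∈ Finset.Ico (2 ^ j) (2 ^ (j + 2)), ((Crit B m).card : ℝ) ≤
      C * ((1 / e) * (4 * 2 ^ j) ^ e) := by
    intro m hm'
    obtain ⟨h1, h2, h3⟩ := hm m hm'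
    refine (hcr m h1).2.trans ?_
    have q2 := Real.log_le_rpow_div (x := (m : ℝ)) (ε := e) (by linarith) (by positivity)
    have q3 : (m : ℝ) ^ e ≤ (4 * 2 ^ j) ^ e := Real.rpow_le_rpow (by linarith) h3 (by positivity)
    have : Real.log (m : ℝ) ≤ (1 / e) * (4 * 2 ^ j) ^ e := by
      calc Real.log (m : ℝ) ≤ (m : ℝ) ^ e / e := q2
        _ ≤ (4 * 2 ^ j) ^ e / e := by gcongr
        _ = _ := by ring
    gcongr
  have hW0 : ∀ m ∈ Finset.Ico (2 ^ j) (2 ^ (j + 2)), 0 ≤ W η B m := fun m hm' =>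
    W_nonneg η B hη0.le (by linarith) m (by have := (hm m hm').1; omega)
  have hradb : ∀ m ∈ Finset.Ico (2 ^ j) (2 ^ (j + 2)), rad q e η B m ^ 2 ≤
      (16 / η ^ 2) ^ 2 * (W η B m * (2 : ℝ) ^ ((-4 * q + 4 * e) * j)) := by
    intro m hm'
    obtain ⟨h1, h2, h3⟩ := hm m hm'
    have hm0 : (0 : ℝ) < m := by linarith
    have e1 : rad q e η B m ^ 2 = (16 / η ^ 2) ^ 2 * (√(W η B m) ^ 2 * ((m : ℝ) ^ (-q + e)) ^ 4) := by
      unfold rad; ring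
    rw [e1, Real.sq_sqrt (hW0 m hm')]
    have h4 : (m : ℝ) ^ (-q + e) ≤ ((2 : ℝ) ^ j) ^ (-q + e) :=
      Real.rpow_le_rpow_of_nonpos (by positivity) h2 (by linarith)
    have h5 : (((2 : ℝ) ^ j) ^ (-q + e)) ^ 4 = (2 : ℝ) ^ ((-4 * q + 4 * e) * j) := by
      rw [← Real.rpow_natCast, ← Real.rpow_natCast, ← Real.rpow_mul (by norm_num), ← Real.rpow_mul (by norm_num)]
      congr 1; push_cast; ring
    rw [← h5]
    have := hW0 m hm'
    gcongr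
  rw [nn_lint]
  have e1 : ∑ m ∈ Finset.Ico (2 ^ j) (2 ^ (j + 2)), ∑ c ∈ Crit B m, ENNReal.ofReal (Real.pi * rad q e η B m ^ 2) =
      ENNReal.ofReal (∑ m ∈ Finset.Ico (2 ^ j) (2 ^ (j + 2)), ((Crit B m).card : ℝ) * (Real.pi * rad q e η B m ^ 2)) := by
    rw [ENNReal.ofReal_sum_of_nonneg fun m hm' => by positivity]
    refine Finset.sum_congr rfl fun m _ => ?_
    rw [Finset.sum_const, nsmul_eq_mul, ENNReal.ofReal_mul (Nat.cast_nonneg _), ENNReal.ofReal_natCast]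
  rw [e1]
  apply ENNReal.ofReal_le_ofReal
  have h1 : ∑ m ∈ Finset.Ico (2 ^ j) (2 ^ (j + 2)), ((Crit B m).card : ℝ) * (Real.pi * rad q e η B m ^ 2) ≤
      ∑ m ∈ Finset.Ico (2 ^ j) (2 ^ (j + 2)), (C * ((1 / e) * (4 * 2 ^ j) ^ e)) *
        (Real.pi * (16 / η ^ 2) ^ 2 * (2 : ℝ) ^ ((-4 * q + 4 * e) * j)) * W η B m := by
    refine Finset.sum_le_sum fun m hm' => ?_
    calc ((Crit B m).card : ℝ) * (Real.pi * rad q e η B m ^ 2) ≤
        (C * ((1 / e) * (4 * 2 ^ j) ^ e)) * (Real.pi * ((16 / η ^ 2) ^ 2 * (W η B m * (2 : ℝ) ^ ((-4 * q + 4 * e) * j)))) := by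
          refine mul_le_mul (hcard m hm') ?_ (by positivity) (by positivity)
          exact mul_le_mul_of_nonneg_left (hradb m hm') Real.pi_pos.le
      _ = _ := by ring
  refine h1.trans ?_
  rw [← Finset.mul_sum]
  have h2 : ∑ m ∈ Finset.Ico (2 ^ j) (2 ^ (j + 2)), W η B m ≤ C' * (4 * 2 ^ j) ^ (1 + 2 * e) := by
    have h3 := hS (2 ^ (j + 2)) (by
      calc 5 ≤ j := by omega
        _ ≤ 2 ^ j := hj2.le
        _ ≤ 2 ^ (j + 2) := Nat.pow_le_pow_right (by norm_num) (by omega))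
    have h4 : (((2 ^ (j + 2) : ℕ)) : ℝ) = 4 * 2 ^ j := by push_cast; rw [pow_add]; ring
    rw [h4] at h3
    refine le_trans (Finset.sum_le_sum_of_subset_of_nonneg ?_ ?_) h3
    · intro m hm'
      have := (hm m hm').1
      rw [Finset.mem_Ico] at hm' ⊢
      exact ⟨by omega, hm'.2⟩
    · intro m hm' _
      rw [Finset.mem_Ico] at hm'
      exact W_nonneg η B hη0.le (by linarith) m (by omega)
  have hpos : 0 ≤ (C * ((1 / e) * (4 * 2 ^ j) ^ e)) *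
        (Real.pi * (16 / η ^ 2) ^ 2 * (2 : ℝ) ^ ((-4 * q + 4 * e) * j)) := by positivity
  refine (mul_le_mul_of_nonneg_left h2 hpos).trans ?_
  have e2 : ((4 : ℝ) * 2 ^ j) ^ e = 4 ^ e * (2 : ℝ) ^ (e * j) := by
    rw [Real.mul_rpow (by norm_num) (by positivity), ← Real.rpow_natCast, ← Real.rpow_mul (by norm_num)]
    congr 2; ring
  have e3 : ((4 : ℝ) * 2 ^ j) ^ (1 + 2 * e) = 4 ^ (1 + 2 * e) * (2 : ℝ) ^ ((1 + 2 * e) * j) := by
    rw [Real.mul_rpow (by norm_num) (by positivity), ← Real.rpow_natCast, ← Real.rpow_mul (by norm_num)]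
    congr 2; ring
  have e4 : (2 : ℝ) ^ ((1 - 4 * q + 7 * e) * j) =
      (2 : ℝ) ^ (e * j) * (2 : ℝ) ^ ((-4 * q + 4 * e) * j) * (2 : ℝ) ^ ((1 + 2 * e) * j) := by
    rw [← Real.rpow_add (by norm_num), ← Real.rpow_add (by norm_num)]
    congr 1; ring
  rw [e2, e3, e4]
  refine le_of_eq ?_
  ring

/-- for almost every value `nn` is small -/
theorem nn_ae (q e : ℝ) (he : 0 < e) (he1 : e ≤ 1) (hq : e ≤ q) (B : ℕ) (hB : 2 ≤ B) :
    ∀ᵐ a : ℂ, ∀ᶠ j : ℕ in atTop,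
    nn q e (e / 8) B j a ≤ ENNReal.ofReal ((2 : ℝ) ^ ((1 - 4 * q + 8 * e) * j)) := by
  obtain ⟨K, hK, j₀, h⟩ := nn_mean q e he he1 hq B hB
  have hB : ∀ j : ℕ, j₀ ≤ j → volume {a : ℂ | ENNReal.ofReal ((2 : ℝ) ^ ((1 - 4 * q + 8 * e) * j)) ≤
      nn q e (e / 8) B j a} ≤ ENNReal.ofReal (K * ((2 : ℝ) ^ (-e)) ^ j) := by
    intro j hj
    have h1 := mul_meas_ge_le_lintegral (μ := (volume : Measure ℂ)) (nn_meas q e (e / 8) B j)
      (ENNReal.ofReal ((2 : ℝ) ^ ((1 - 4 * q + 8 * e) * j)))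
    have h2 := h1.trans (h j hj)
    have hp : (0 : ℝ) < (2 : ℝ) ^ ((1 - 4 * q + 8 * e) * j) := by positivity
    have e' : K * (2 : ℝ) ^ ((1 - 4 * q + 7 * e) * j) =
        (2 : ℝ) ^ ((1 - 4 * q + 8 * e) * j) * (K * ((2 : ℝ) ^ (-e)) ^ j) := by
      rw [← Real.rpow_natCast ((2 : ℝ) ^ (-e)), ← Real.rpow_mul (by norm_num)]
      rw [mul_left_comm, ← Real.rpow_add (by norm_num)]
      congr 2; ring
    rw [e', ENNReal.ofReal_mul hp.le] at h2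
    exact (ENNReal.mul_le_mul_iff_right (by simpa using hp) ENNReal.ofReal_ne_top).1 h2
  have hsum : ∑' j : ℕ, volume {a : ℂ | ENNReal.ofReal ((2 : ℝ) ^ ((1 - 4 * q + 8 * e) * ((j + j₀ : ℕ) : ℝ))) ≤
      nn q e (e / 8) B (j + j₀) a} ≠ ∞ := by
    have hq0 : (0 : ℝ) < (2 : ℝ) ^ (-e) := by positivity
    have hq1 : (2 : ℝ) ^ (-e) < 1 := Real.rpow_lt_one_of_one_lt_of_neg (by norm_num) (by linarith)
    have hs : Summable fun j : ℕ => K * ((2 : ℝ) ^ (-e)) ^ (j + j₀) :=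
      ((summable_nat_add_iff j₀).2 (summable_geometric_of_lt_one hq0.le hq1)).mul_left K
    refine ne_top_of_le_ne_top ?_ (ENNReal.tsum_le_tsum fun j => hB (j + j₀) (by omega))
    rw [← ENNReal.ofReal_tsum_of_nonneg (fun j => by positivity) hs]
    exact ENNReal.ofReal_ne_top
  have hae := ae_eventually_notMem hsum
  filter_upwards [hae] with a ha
  obtain ⟨N, hN⟩ := eventually_atTop.1 ha
  refine eventually_atTop.2 ⟨N + j₀, fun j hj => ?_⟩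
  have h1 := hN (j - j₀) (by omega)
  have e' : j - j₀ + j₀ = j := by omega
  rw [e'] at h1
  simp only [not_le] at h1
  exact h1.le

end Pool.Agent.V8H35.AP
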