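import Pool.Agent.V8H35.AP.CN1

set_option autoImplicit false

/-! The number of close pairs for almost every value: conclusion. -/

namespace Pool.Agent.V8H35.AP

open Complex Metric Set MeasureTheory Filter Topology Asymptotics
open scoped ENNReal

theorem near_crit (q e : ℝ) (he : 0 < e) (he1 : e ≤ 1) (hq : e < q) (B : ℕ) (hB : 2 ≤ B) :
    ∀ᶠ m : ℕ in atTop, ∀ (a s s' : ℂ), 1 / 2 ≤ s.re → s.re ≤ B → (m : ℝ) ≤ s.im → s.im ≤ m + 1 → s ≠ s' →
    ‖s' - s‖ ≤ (m : ℝ) ^ (-q) → riemannZeta s = a → riemannZeta s' = a →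
    ∃ c ∈ Crit B m, a ∈ closedBall (riemannZeta c) (rad q e (e / 8) B m) := by
  have hB' : (2 : ℝ) ≤ B := by exact_mod_cast hB
  obtain ⟨η, hη⟩ : ∃ η : ℝ, η = e / 8 := ⟨_, rfl⟩
  rw [← hη]
  have hη0 : 0 < η := by rw [hη]; positivity
  have hη1 : η ≤ 1 / 8 := by rw [hη]; linarith
  obtain ⟨K, hK, hcr⟩ := crit_spec B
  have t2 : Tendsto (fun m : ℕ => (m : ℝ) ^ (-(q - e))) atTop (𝓝 0) :=
    (tendsto_rpow_neg_atTop (by linarith)).comp tendsto_natCast_atTop_atTop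
  filter_upwards [find B q e (by linarith) he hq.le,
    t2.eventually (eventually_le_nhds (show (0 : ℝ) < η / 4 by positivity)),
    eventually_ge_atTop (6 * B + 60)] with m f1 f2 hmm a s s' h3 h4 hma hmb h1 hdist h6 h7
  have hm' : (60 : ℝ) ≤ m := by exact_mod_cast (by omega : 60 ≤ m)
  obtain ⟨ρ, hρ1, hρ2⟩ := f1 s s' (by linarith) h4 hma hmb h1 hdist (h6.trans h7.symm)
  have hsmall : (m : ℝ) ^ (-q + e) ≤ η / 4 := by
    rw [show -q + e = -(q - e) by ring]; exact f2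
  have b1 := abs_lt.1 ((Complex.abs_re_le_norm _).trans_lt hρ2)
  have b2 := abs_lt.1 ((Complex.abs_im_le_norm _).trans_lt hρ2)
  rw [sub_re] at b1
  rw [sub_im] at b2
  refine ⟨ρ, (hcr m hmm).1 ρ ⟨by linarith, by linarith, by linarith, by linarith, hρ1⟩, ?_⟩
  have ho := osc η B hη0 hη1 hB' m (by omega) s ρ (by linarith) h4 hma hmb hρ1 (by linarith)
  rw [mem_closedBall, dist_eq_norm, ← h6]
  refine ho.trans ?_
  unfold rad
  have : ‖s - ρ‖ ≤ (m : ℝ) ^ (-q + e) := by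
    rw [norm_sub_rev]; exact hρ2.le
  gcongr

/-- the solutions with `1/2 ≤ Re s ≤ B`, `X < Im s ≤ 2X` which have another solution at distance at most `δ` -/
def close (a : ℂ) (B : ℕ) (δ X : ℝ) : Set ℂ := {s | riemannZeta s = a ∧ 1 / 2 ≤ s.re ∧ s.re ≤ B ∧ X < s.im ∧
  s.im ≤ 2 * X ∧ ∃ s' : ℂ, s ≠ s' ∧ riemannZeta s' = a ∧ ‖s - s'‖ ≤ δ}

theorem close_count (q e : ℝ) (he : 0 < e) (he1 : e ≤ 1) (hq : e < q) (B : ℕ) (hB : 2 ≤ B) (a : ℂ) (ha : a ≠ 1)
    (h : ∀ᶠ j : ℕ in atTop, nn q e (e / 8) B j a ≤ ENNReal.ofReal ((2 : ℝ) ^ ((1 - 4 * q + 8 * e) * j))) :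
    ∃ X₀ : ℝ, ∀ X : ℝ, X₀ ≤ X → (close a B (X ^ (-(q + e))) X).Finite ∧
      ((close a B (X ^ (-(q + e))) X).ncard : ℝ) ≤ X ^ (1 - 4 * q + 10 * e) := by
  classical
  obtain ⟨m₁, hnc⟩ := eventually_atTop.1 (near_crit q e he he1 hq B hB)
  obtain ⟨N, m₂, has⟩ := as_fin a ha B
  obtain ⟨J, hJ⟩ := eventually_atTop.1 h
  obtain ⟨C, hCd⟩ : ∃ C : ℝ, C = 2 * ((N : ℝ) + 1) := ⟨_, rfl⟩
  rw [← hCd] at has
  have hC : 0 < C := by rw [hCd]; positivity
  -- largeness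
  have hlog : ∀ᶠ j : ℕ in atTop, C * Real.log ((2 : ℝ) ^ (j + 2)) ≤ (2 : ℝ) ^ (e * j) := by
    have h1 : (fun j : ℕ => (j : ℝ)) =o[atTop] fun j : ℕ => ((2 : ℝ) ^ e) ^ j :=
      isLittleO_coe_const_pow_of_one_lt (R := ℝ) (Real.one_lt_rpow (by norm_num) he)
    have h2 := h1.def (c := (6 * C + 1)⁻¹) (by positivity)
    filter_upwards [h2, eventually_ge_atTop 1] with j hj hj1
    rw [Real.norm_of_nonneg (Nat.cast_nonneg _), Real.norm_of_nonneg (by positivity)] at hj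
    have hj1' : (1 : ℝ) ≤ j := by exact_mod_cast hj1
    have e1 : ((2 : ℝ) ^ e) ^ j = (2 : ℝ) ^ (e * j) := by
      rw [← Real.rpow_natCast, ← Real.rpow_mul (by norm_num)]
    rw [e1, inv_mul_eq_div, le_div_iff₀ (by positivity)] at hj
    have h3 : Real.log ((2 : ℝ) ^ (j + 2)) ≤ (j + 2 : ℝ) := by
      rw [Real.log_pow]
      push_cast
      have h6 := Real.log_two_lt_d9
      nlinarith
    have h7 : C * Real.log ((2 : ℝ) ^ (j + 2)) ≤ C * (j + 2 : ℝ) := by gcongr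
    nlinarith
  obtain ⟨J2, hJ2⟩ := eventually_atTop.1 hlog
  obtain ⟨g, hg⟩ : ∃ g : ℝ, g = 1 - 4 * q + 9 * e := ⟨_, rfl⟩
  have hXe : ∀ᶠ X : ℝ in atTop, max ((2 : ℝ) ^ |g|) (4 ^ q) ≤ X ^ e := (tendsto_rpow_atTop he).eventually_ge_atTop _
  obtain ⟨X1, hX1⟩ := eventually_atTop.1 hXe
  refine ⟨max (max X1 1) (2 ^ (J + J2 + m₁ + m₂ + 1)), fun X hX => ?_⟩
  have hXX1 : X1 ≤ X := le_trans (le_trans (le_max_left _ _) (le_max_left _ _)) hX
  have hX1' : 1 ≤ X := le_trans (le_trans (le_max_right _ _) (le_max_left _ _)) hX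
  have hXJ : (2 : ℝ) ^ (J + J2 + m₁ + m₂ + 1) ≤ X := le_trans (le_max_right _ _) hX
  have hX0 : 0 < X := by linarith
  obtain ⟨j, hj⟩ : ∃ j : ℕ, j = Nat.log 2 ⌊X⌋₊ := ⟨_, rfl⟩
  have hfl0 : ⌊X⌋₊ ≠ 0 := by
    have : 0 < ⌊X⌋₊ := Nat.floor_pos.2 hX1'
    omega
  have hj1 : (2 : ℝ) ^ j ≤ X := by
    have h1 := Nat.pow_log_le_self 2 hfl0
    rw [← hj] at h1
    have h2 : ((2 ^ j : ℕ) : ℝ) ≤ (⌊X⌋₊ : ℝ) := by exact_mod_cast h1
    push_cast at h2
    exact h2.trans (Nat.floor_le (by linarith))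
  have hj2 : X < (2 : ℝ) ^ (j + 1) := by
    have h1 := Nat.lt_pow_succ_log_self (b := 2) (by norm_num) ⌊X⌋₊
    rw [← hj] at h1
    have h2 : X < ((2 ^ (j + 1) : ℕ) : ℝ) := by
      rw [← Nat.floor_lt (by linarith)]
      exact h1
    push_cast at h2
    exact h2
  have hjJ : J + J2 + m₁ + m₂ ≤ j := by
    have h1 : (2 : ℝ) ^ (J + J2 + m₁ + m₂ + 1) < 2 ^ (j + 1) := lt_of_le_of_lt hXJ hj2
    have h2 := (pow_lt_pow_iff_right₀ (by norm_num : (1 : ℝ) < 2)).1 h1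
    omega
  have hjlt : j < 2 ^ j := Nat.lt_two_pow_self
  -- the bad boxes
  obtain ⟨D, hD⟩ : ∃ D : Finset ℕ, D = (Finset.Ico (2 ^ j) (2 ^ (j + 2))).filter fun m =>
      ∃ c ∈ Crit B m, a ∈ closedBall (riemannZeta c) (rad q e (e / 8) B m) := ⟨_, rfl⟩
  have hδ : X ^ (-(q + e)) ≤ (4 * X) ^ (-q) := by
    rw [Real.mul_rpow (by norm_num) hX0.le, show -(q + e) = -q + -e by ring, Real.rpow_add hX0, mul_comm]
    refine mul_le_mul_of_nonneg_right ?_ (by positivity)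
    rw [Real.rpow_neg hX0.le, Real.rpow_neg (by norm_num)]
    exact inv_anti₀ (by positivity) ((le_max_right _ _).trans (hX1 X hXX1))
  have hsub : close a B (X ^ (-(q + e))) X ⊆ ⋃ m ∈ D, AS a B m := by
    rintro s ⟨h1, h2, h3, h4, h5, s', h6, h7, h8⟩
    have ht0 : 0 ≤ s.im := by linarith
    obtain ⟨m, hm⟩ : ∃ m : ℕ, m = ⌊s.im⌋₊ := ⟨_, rfl⟩
    have hmt : (m : ℝ) ≤ s.im := by rw [hm]; exact Nat.floor_le ht0
    have hmt2 : s.im < (m : ℝ) + 1 := by rw [hm]; exact Nat.lt_floor_add_one _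
    have hm1 : 2 ^ j ≤ m := by
      rw [hm]
      refine Nat.le_floor ?_
      push_cast
      linarith
    have hm2 : m < 2 ^ (j + 2) := by
      have : (m : ℝ) < ((2 ^ (j + 2) : ℕ) : ℝ) := by
        push_cast
        rw [pow_succ]
        linarith
      exact_mod_cast this
    have hm0 : (0 : ℝ) < m := by
      have : 0 < m := by omega
      exact_mod_cast this
    have hd : ‖s' - s‖ ≤ (m : ℝ) ^ (-q) := by
      rw [norm_sub_rev]
      refine h8.trans (hδ.trans ?_)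
      exact Real.rpow_le_rpow_of_nonpos hm0 (by linarith) (by linarith)
    obtain ⟨c, hc, hca⟩ := hnc m (by omega) a s s' h2 h3 hmt hmt2.le h6 hd h1 h7
    rw [mem_iUnion₂]
    refine ⟨m, ?_, ⟨h1, by linarith, h3, hmt, hmt2.le⟩⟩
    rw [hD, Finset.mem_filter, Finset.mem_Ico]
    exact ⟨⟨hm1, hm2⟩, c, hc, hca⟩
  -- number of the bad boxes
  have hBc : (D.card : ℝ) ≤ (2 : ℝ) ^ ((1 - 4 * q + 8 * e) * j) := by
    have h1 : (D.card : ℝ≥0∞) ≤ nn q e (e / 8) B j a := by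
      have h2 : ∑ m ∈ D, (1 : ℝ≥0∞) ≤ ∑ m ∈ D, ∑ c ∈ Crit B m,
          (closedBall (riemannZeta c) (rad q e (e / 8) B m)).indicator (fun _ => (1 : ℝ≥0∞)) a := by
        refine Finset.sum_le_sum fun m hm => ?_
        rw [hD, Finset.mem_filter] at hm
        obtain ⟨_, c, hc, hca⟩ := hm
        have h3 : (closedBall (riemannZeta c) (rad q e (e / 8) B m)).indicator (fun _ => (1 : ℝ≥0∞)) a = 1 :=
          indicator_of_mem hca _
        exact h3.symm.le.trans (Finset.single_le_sum (f := fun c => (closedBall (riemannZeta c)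
          (rad q e (e / 8) B m)).indicator (fun _ => (1 : ℝ≥0∞)) a) (fun _ _ => zero_le) hc)
      rw [Finset.sum_const, nsmul_eq_mul, mul_one] at h2
      refine h2.trans ?_
      unfold nn
      refine Finset.sum_le_sum_of_subset ?_
      rw [hD]
      exact Finset.filter_subset _ _
    have h2 := h1.trans (hJ j (by omega))
    rw [← ENNReal.ofReal_natCast, ENNReal.ofReal_le_ofReal_iff (by positivity)] at h2
    exact h2
  have hfinm : ∀ m ∈ D, (AS a B m).Finite ∧ ((AS a B m).ncard : ℝ) ≤ (2 : ℝ) ^ (e * j) := by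
    intro m hm
    rw [hD, Finset.mem_filter, Finset.mem_Ico] at hm
    obtain ⟨hm1, _⟩ := hm
    obtain ⟨h1, h2⟩ := has m (by omega)
    refine ⟨h1, ?_⟩
    have hm0 : (0 : ℝ) < m := by
      have : 0 < m := by omega
      exact_mod_cast this
    have h5 : Real.log (m : ℝ) ≤ Real.log ((2 : ℝ) ^ (j + 2)) := by
      refine Real.log_le_log hm0 ?_
      have : (m : ℝ) < ((2 ^ (j + 2) : ℕ) : ℝ) := by exact_mod_cast hm1.2
      push_cast at this
      linarith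
    have h6 := hJ2 j (by omega)
    have h7 : C * Real.log (m : ℝ) ≤ C * Real.log ((2 : ℝ) ^ (j + 2)) := by gcongr
    linarith
  have hfin : (⋃ m ∈ D, AS a B m).Finite := D.finite_toSet.biUnion fun m hm => (hfinm m hm).1
  refine ⟨hfin.subset hsub, ?_⟩
  have h1 : (close a B (X ^ (-(q + e))) X).ncard ≤ (⋃ m ∈ D, AS a B m).ncard := Set.ncard_le_ncard hsub hfin
  have h2 : (⋃ m ∈ D, AS a B m).ncard ≤ ∑ m ∈ D, (AS a B m).ncard := by
    have := Finset.set_ncard_biUnion_le D (AS a B)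
    exact this
  have h3 : ((close a B (X ^ (-(q + e))) X).ncard : ℝ) ≤ ∑ m ∈ D, ((AS a B m).ncard : ℝ) := by
    exact_mod_cast h1.trans h2
  have h4 : ∑ m ∈ D, ((AS a B m).ncard : ℝ) ≤ D.card * (2 : ℝ) ^ (e * j) := by
    refine (Finset.sum_le_sum fun m hm => (hfinm m hm).2).trans ?_
    rw [Finset.sum_const, nsmul_eq_mul]
  have h5 : (D.card : ℝ) * (2 : ℝ) ^ (e * j) ≤ (2 : ℝ) ^ (g * j) := by
    calc (D.card : ℝ) * (2 : ℝ) ^ (e * j) ≤ (2 : ℝ) ^ ((1 - 4 * q + 8 * e) * j) * (2 : ℝ) ^ (e * j) := by gcongr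
      _ = _ := by
        rw [← Real.rpow_add (by norm_num), hg]
        congr 1; ring
  have h6 : (2 : ℝ) ^ (g * j) ≤ (2 : ℝ) ^ |g| * X ^ g := by
    rcases le_total 0 g with hh | hh
    · have h7 : (2 : ℝ) ^ (g * j) ≤ X ^ g := by
        have := Real.rpow_le_rpow (by positivity) hj1 hh
        rw [← Real.rpow_natCast, ← Real.rpow_mul (by norm_num)] at this
        rwa [mul_comm]
      have h8 : (1 : ℝ) ≤ (2 : ℝ) ^ |g| := Real.one_le_rpow (by norm_num) (abs_nonneg _)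
      have h9 : 0 ≤ X ^ g := by positivity
      nlinarith
    · have h7 : ((2 : ℝ) ^ (j + 1)) ^ g ≤ X ^ g := Real.rpow_le_rpow_of_nonpos (by linarith) hj2.le hh
      rw [← Real.rpow_natCast, ← Real.rpow_mul (by norm_num)] at h7
      have h8 : (2 : ℝ) ^ (g * j) = (2 : ℝ) ^ |g| * (2 : ℝ) ^ (((j + 1 : ℕ) : ℝ) * g) := by
        rw [← Real.rpow_add (by norm_num), abs_of_nonpos hh]
        congr 1; push_cast; ring
      rw [h8]
      gcongr
  have h7 : (2 : ℝ) ^ |g| * X ^ g ≤ X ^ (1 - 4 * q + 10 * e) := by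
    calc (2 : ℝ) ^ |g| * X ^ g ≤ X ^ e * X ^ g := by
          gcongr
          exact (le_max_left _ _).trans (hX1 X hXX1)
      _ = _ := by
        rw [← Real.rpow_add (by linarith), hg]
        congr 1; ring
  linarith

end Pool.Agent.V8H35.AP
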