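import Pool.Agent.H701R2.FolF

set_option autoImplicit false

/-! Minimum modulus of a holomorphic function off its zeros, and a criterion for injectivity. -/

namespace Pool.Agent.V8H35.AP

open Complex Metric Set

/-- Borel-Caratheodory for the logarithm of a function without zeros -/
theorem log_var {h : ℂ → ℂ} {c : ℂ} {r M : ℝ} (hr : 0 < r) (hh : DifferentiableOn ℂ h (ball c r))
    (h0 : ∀ z ∈ ball c r, h z ≠ 0) (hM : ∀ z ∈ ball c r, ‖h z‖ ≤ M) {z : ℂ} (hz : ‖z - c‖ ≤ r / 2) :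
    ∃ w : ℂ, Complex.exp w = h z / h c ∧ ‖w‖ ≤ 4 / r * ‖z - c‖ * (Real.log (M / ‖h c‖) + 1) := by
  obtain ⟨L, hL, hexp⟩ := Pool.Agent.H701R2.Fol.exists_log_ball hh h0
  have hcm : c ∈ ball c r := mem_ball_self hr
  have hc0 : 0 < ‖h c‖ := norm_pos_iff.2 (h0 c hcm)
  have hM0 : 0 < M := hc0.trans_le (hM c hcm)
  have hlog0 : 0 ≤ Real.log (M / ‖h c‖) := Real.log_nonneg (by rw [le_div_iff₀ hc0, one_mul]; exact hM c hcm)
  obtain ⟨A, hA⟩ : ∃ A : ℝ, A = Real.log (M / ‖h c‖) + 1 := ⟨_, rfl⟩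
  have hA0 : 0 < A := by rw [hA]; linarith
  have hmap : ∀ u ∈ ball (0 : ℂ) r, c + u ∈ ball c r := by
    intro u hu
    rw [mem_ball_zero_iff] at hu
    rw [mem_ball, dist_eq_norm, add_sub_cancel_left]
    exact hu
  have hre : ∀ y ∈ ball c r, (L y).re = Real.log ‖h y‖ := by
    intro y hy
    rw [← hexp y hy, Complex.norm_exp, Real.log_exp]
  have hbc := Complex.borelCaratheodory_zero (f := fun u => L (c + u) - L c) (M := A) (R := r)
    (z := z - c) hA0 ?_ ?_ hr ?_ (by simp)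
  · refine ⟨L z - L c, ?_, ?_⟩
    · have hzm : z ∈ ball c r := by
        rw [mem_ball, dist_eq_norm]; linarith
      rw [Complex.exp_sub, hexp z hzm, hexp c hcm]
    · simp only [add_sub_cancel] at hbc
      refine hbc.trans ?_
      rw [← hA, div_le_iff₀ (by linarith [norm_nonneg (z - c)])]
      have h1 : 4 / r * ‖z - c‖ * A * (r - ‖z - c‖) = 4 * ‖z - c‖ * A * ((r - ‖z - c‖) / r) := by ring
      rw [h1]
      have h2 : 1 / 2 ≤ (r - ‖z - c‖) / r := by
        rw [le_div_iff₀ hr]; linarith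
      have h3 : 0 ≤ 4 * ‖z - c‖ * A := by positivity
      nlinarith
  · intro u hu
    have h1 : DifferentiableAt ℂ L (c + u) := hL.differentiableAt (isOpen_ball.mem_nhds (hmap u hu))
    have h2 : DifferentiableAt ℂ (fun u => L (c + u)) u :=
      DifferentiableAt.comp u (g := L) (f := fun u => c + u) h1 (by fun_prop)
    exact (h2.sub_const _).differentiableWithinAt
  · intro u hu
    simp only [mem_ofPred_eq, sub_re]
    rw [hre _ (hmap u hu), hre c hcm, hA]
    have h1 : Real.log ‖h (c + u)‖ ≤ Real.log M :=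
      Real.log_le_log (norm_pos_iff.2 (h0 _ (hmap u hu))) (hM _ (hmap u hu))
    rw [Real.log_div hM0.ne' hc0.ne']
    linarith
  · rw [mem_ball_zero_iff]; linarith

/-- lower bound for a function without zeros -/
theorem low_nozero {h : ℂ → ℂ} {c : ℂ} {r M : ℝ} (hr : 0 < r) (hh : DifferentiableOn ℂ h (ball c r))
    (h0 : ∀ z ∈ ball c r, h z ≠ 0) (hM : ∀ z ∈ ball c r, ‖h z‖ ≤ M) {z : ℂ} (hz : ‖z - c‖ ≤ r / 2) :
    M * Real.exp (-2) * (‖h c‖ / M) ^ 3 ≤ ‖h z‖ := by
  obtain ⟨w, hw, hwn⟩ := log_var hr hh h0 hM hz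
  have hcm : c ∈ ball c r := mem_ball_self hr
  have hc0 : 0 < ‖h c‖ := norm_pos_iff.2 (h0 c hcm)
  have hM0 : 0 < M := hc0.trans_le (hM c hcm)
  have hlog0 : 0 ≤ Real.log (M / ‖h c‖) := Real.log_nonneg (by rw [le_div_iff₀ hc0, one_mul]; exact hM c hcm)
  have h1 : ‖w‖ ≤ 2 * (Real.log (M / ‖h c‖) + 1) := by
    refine hwn.trans ?_
    have h2 : 4 / r * ‖z - c‖ ≤ 2 := by
      rw [div_mul_eq_mul_div, div_le_iff₀ hr]
      linarith
    gcongr
  have h2 : -(2 * (Real.log (M / ‖h c‖) + 1)) ≤ w.re := by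
    have := (abs_le.1 (Complex.abs_re_le_norm w)).1
    linarith
  have h3 : ‖h z‖ = ‖h c‖ * Real.exp w.re := by
    rw [← Complex.norm_exp, hw, norm_div]
    field_simp
  have h4 : Real.exp (-(2 * (Real.log (M / ‖h c‖) + 1))) = Real.exp (-2) * (‖h c‖ / M) ^ 2 := by
    have e1 : -(2 * (Real.log (M / ‖h c‖) + 1)) = -2 + Real.log ((‖h c‖ / M) ^ 2) := by
      rw [Real.log_pow, ← inv_div M ‖h c‖, Real.log_inv]
      push_cast
      ring
    rw [e1, Real.exp_add, Real.exp_log (by positivity)]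
  rw [h3]
  calc M * Real.exp (-2) * (‖h c‖ / M) ^ 3 = ‖h c‖ * (Real.exp (-2) * (‖h c‖ / M) ^ 2) := by
        field_simp
    _ = ‖h c‖ * Real.exp (-(2 * (Real.log (M / ‖h c‖) + 1))) := by rw [h4]
    _ ≤ _ := by gcongr

/-- minimum modulus at distance at least `r₁` from the zeros -/
theorem minmod (c : ℂ) (r R R1 : ℝ) (hr : 1 ≤ r) (h3 : 3 * r ≤ R) (hRR : R < R1) (z1 : ℂ) (r1 : ℝ)
    (hr1 : 0 < r1) (hr1' : r1 ≤ 1) (hz1 : ‖z1 - c‖ ≤ r / 2) :
    ∀ (n : ℕ) (h : ℂ → ℂ) (M : ℝ), DifferentiableOn ℂ h (ball c R1) →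
      (∀ z ∈ sphere c R, ‖h z‖ ≤ M) → 0 < ‖h c‖ → M < ‖h c‖ * 2 ^ n → (∀ z ∈ ball z1 r1, h z ≠ 0) →
      M * Real.exp (-2) * (r1 / R) ^ n * (‖h c‖ / M) ^ 3 ≤ ‖h z1‖ := by
  have hR0 : 0 < R := by linarith
  have hmax : ∀ (h : ℂ → ℂ) (M : ℝ), DifferentiableOn ℂ h (ball c R1) →
      (∀ z ∈ sphere c R, ‖h z‖ ≤ M) → ∀ z ∈ closedBall c R, ‖h z‖ ≤ M := by
    intro h M hh hM z hz
    have hsub : closedBall c R ⊆ ball c R1 := closedBall_subset_ball hRR
    have hd : DiffContOnCl ℂ h (ball c R) := by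
      apply DifferentiableOn.diffContOnCl
      rw [closure_ball c hR0.ne']
      exact hh.mono hsub
    refine Complex.norm_le_of_forall_mem_frontier_norm_le isBounded_ball hd ?_ ?_
    · intro z hz
      rw [frontier_ball c hR0.ne'] at hz
      exact hM z hz
    · rw [closure_ball c hR0.ne']
      exact hz
  intro n
  induction n with
  | zero =>
    intro h M hh hM hc hn _
    have := hmax h M hh hM c (mem_closedBall_self hR0.le)
    rw [pow_zero, mul_one] at hn
    linarith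
  | succ n ih =>
    intro h M hh hM hc hn hz
    have hMc := hmax h M hh hM c (mem_closedBall_self hR0.le)
    have hM0 : 0 < M := hc.trans_le hMc
    have hq0 : 0 < ‖h c‖ / M := by positivity
    by_cases hex : ∃ ρ ∈ ball c r, h ρ = 0
    · obtain ⟨ρ, hρ, hρ0⟩ := hex
      have hρc : ρ ≠ c := by
        intro e
        rw [e] at hρ0
        rw [hρ0, norm_zero] at hc
        exact lt_irrefl _ hc
      have hρr : ‖ρ - c‖ < r := by rwa [mem_ball, dist_eq_norm] at hρ
      have hmem : ρ ∈ ball c R1 := by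
        rw [mem_ball, dist_eq_norm]; linarith
      have hg : DifferentiableOn ℂ (dslope h ρ) (ball c R1) :=
        (Complex.differentiableOn_dslope (isOpen_ball.mem_nhds hmem)).2 hh
      have hfac : ∀ z : ℂ, (z - ρ) * dslope h ρ z = h z := by
        intro z
        have := sub_smul_dslope h ρ z
        rw [smul_eq_mul, hρ0, sub_zero] at this
        exact this
      have hgc : ‖h c‖ / r ≤ ‖dslope h ρ c‖ := by
        rw [div_le_iff₀ (by linarith), ← hfac c, norm_mul, mul_comm]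
        have : ‖c - ρ‖ ≤ r := by rw [norm_sub_rev]; exact hρr.le
        gcongr
      have hgc0 : 0 < ‖dslope h ρ c‖ := lt_of_lt_of_le (by positivity) hgc
      have hRr : 0 < R - r := by linarith
      have key := ih (dslope h ρ) (M / (R - r)) hg ?_ hgc0 ?_ ?_
      · have hdist : r1 ≤ ‖z1 - ρ‖ := by
          by_contra hcon
          push Not at hcon
          refine hz ρ ?_ hρ0
          rw [mem_ball, dist_eq_norm, norm_sub_rev]
          exact hcon
        rw [← hfac z1, norm_mul]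
        have hq : ‖h c‖ / M ≤ ‖dslope h ρ c‖ / (M / (R - r)) := by
          rw [div_le_div_iff₀ hM0 (by positivity)]
          have h5 : ‖h c‖ ≤ r * ‖dslope h ρ c‖ := by
            rw [div_le_iff₀ (by linarith)] at hgc
            linarith
          have h6 : M / (R - r) ≤ M / r := by
            apply div_le_div_of_nonneg_left hM0.le (by linarith) (by linarith)
          calc ‖h c‖ * (M / (R - r)) ≤ (r * ‖dslope h ρ c‖) * (M / r) := by gcongr
            _ = ‖dslope h ρ c‖ * M := by field_simp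
        have hMR : M / R ≤ M / (R - r) := div_le_div_of_nonneg_left hM0.le hRr (by linarith)
        calc M * Real.exp (-2) * (r1 / R) ^ (n + 1) * (‖h c‖ / M) ^ 3
            = r1 * ((M / R) * Real.exp (-2) * (r1 / R) ^ n * (‖h c‖ / M) ^ 3) := by
              rw [pow_succ]; ring
          _ ≤ r1 * ((M / (R - r)) * Real.exp (-2) * (r1 / R) ^ n *
              (‖dslope h ρ c‖ / (M / (R - r))) ^ 3) := by gcongr
          _ ≤ ‖z1 - ρ‖ * ‖dslope h ρ z1‖ := by gcongr
      · intro z hz'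
        have h5 : R - r ≤ ‖z - ρ‖ := by
          rw [mem_sphere, dist_eq_norm] at hz'
          have := norm_sub_norm_le (z - c) (ρ - c)
          rw [sub_sub_sub_cancel_right] at this
          linarith
        rw [le_div_iff₀ hRr]
        have h6 := hM z hz'
        rw [← hfac z, norm_mul] at h6
        have h7 : 0 ≤ ‖dslope h ρ z‖ := norm_nonneg _
        nlinarith
      · rw [div_lt_iff₀ hRr]
        have h5 : ‖h c‖ ≤ r * ‖dslope h ρ c‖ := by
          rw [div_le_iff₀ (by linarith)] at hgc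
          linarith
        have h6 : (0 : ℝ) < 2 ^ n := by positivity
        calc M < ‖h c‖ * 2 ^ (n + 1) := hn
          _ ≤ (r * ‖dslope h ρ c‖) * 2 ^ (n + 1) := by gcongr
          _ = ‖dslope h ρ c‖ * 2 ^ n * (2 * r) := by rw [pow_succ]; ring
          _ ≤ ‖dslope h ρ c‖ * 2 ^ n * (R - r) := by gcongr; linarith
      · intro z hz' h5
        have h6 := hfac z
        rw [h5, mul_zero] at h6
        exact hz z hz' h6.symm
    · push Not at hex
      have hb : ∀ z ∈ ball c r, ‖h z‖ ≤ M := fun z hz' =>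
        hmax h M hh hM z (ball_subset_closedBall (ball_subset_ball (by linarith) hz'))
      have hlow := low_nozero (by linarith) (hh.mono (ball_subset_ball (by linarith))) hex hb hz1
      refine le_trans ?_ hlow
      have h5 : (r1 / R) ^ (n + 1) ≤ 1 := pow_le_one₀ (by positivity) (by
        rw [div_le_one hR0]; linarith)
      calc M * Real.exp (-2) * (r1 / R) ^ (n + 1) * (‖h c‖ / M) ^ 3
          ≤ M * Real.exp (-2) * 1 * (‖h c‖ / M) ^ 3 := by gcongr
        _ = _ := by ring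

/-- a function is injective near a point if its derivative has no zeros in a larger disc -/
theorem inj_crit {f : ℂ → ℂ} {z1 z2 : ℂ} {r1 M : ℝ} (hr1 : 0 < r1)
    (hf : ∀ z ∈ ball z1 r1, DifferentiableAt ℂ f z) (h0 : ∀ z ∈ ball z1 r1, deriv f z ≠ 0)
    (hM : ∀ z ∈ ball z1 r1, ‖deriv f z‖ ≤ M)
    (hd : 4 / r1 * ‖z2 - z1‖ * (Real.log (M / ‖deriv f z1‖) + 1) ≤ 1 / 4)
    (hd2 : ‖z2 - z1‖ ≤ r1 / 2) (hne : z1 ≠ z2) : f z1 ≠ f z2 := by
  have hopen : DifferentiableOn ℂ f (ball z1 r1) := fun z hz => (hf z hz).differentiableWithinAt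
  have hdd := hopen.deriv isOpen_ball
  have hcm : z1 ∈ ball z1 r1 := mem_ball_self hr1
  have hc0 : 0 < ‖deriv f z1‖ := norm_pos_iff.2 (h0 z1 hcm)
  have hlog0 : 0 ≤ Real.log (M / ‖deriv f z1‖) :=
    Real.log_nonneg (by rw [le_div_iff₀ hc0, one_mul]; exact hM z1 hcm)
  intro heq
  have hbound : ∀ z ∈ segment ℝ z1 z2, ‖deriv f z - deriv f z1‖ ≤ ‖deriv f z1‖ / 2 := by
    intro z hz
    have hzd : ‖z - z1‖ ≤ ‖z2 - z1‖ := by
      obtain ⟨a, b, ha, hb, hab, rfl⟩ := hz
      have : a • z1 + b • z2 - z1 = b • (z2 - z1) := by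
        have ha' : a = 1 - b := by linarith
        rw [ha', smul_sub, sub_smul, one_smul]
        abel
      rw [this, norm_smul, Real.norm_of_nonneg hb]
      have : b ≤ 1 := by linarith
      nlinarith [norm_nonneg (z2 - z1)]
    obtain ⟨w, hw, hwn⟩ := log_var hr1 hdd h0 hM (z := z) (hzd.trans hd2)
    have hw4 : ‖w‖ ≤ 1 / 4 := by
      refine hwn.trans (le_trans ?_ hd)
      gcongr
    have h1 : ‖Complex.exp w - 1‖ ≤ 2 * ‖w‖ := Complex.norm_exp_sub_one_le (by linarith)
    have h2 : deriv f z - deriv f z1 = deriv f z1 * (Complex.exp w - 1) := by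
      rw [hw]
      have : deriv f z1 ≠ 0 := h0 z1 hcm
      field_simp
    rw [h2, norm_mul]
    calc ‖deriv f z1‖ * ‖Complex.exp w - 1‖ ≤ ‖deriv f z1‖ * (1 / 2) := by
          gcongr
          linarith
      _ = _ := by ring
  have hseg : segment ℝ z1 z2 ⊆ ball z1 r1 := by
    refine (convex_ball z1 r1).segment_subset hcm ?_
    rw [mem_ball, dist_eq_norm]; linarith
  have hmv := (convex_segment z1 z2).norm_image_sub_le_of_norm_hasDerivWithin_le
    (f := fun z => f z - deriv f z1 * z) (f' := fun z => deriv f z - deriv f z1) (C := ‖deriv f z1‖ / 2)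
    (fun z hz => by
      have h1 := (hf z (hseg hz)).hasDerivAt
      have h2 := (hasDerivAt_id z).const_mul (deriv f z1)
      have h3 := h1.sub h2
      simp only [mul_one] at h3
      exact h3.hasDerivWithinAt) hbound (left_mem_segment ℝ z1 z2) (right_mem_segment ℝ z1 z2)
  simp only [← heq] at hmv
  have e1 : f z1 - deriv f z1 * z2 - (f z1 - deriv f z1 * z1) = -(deriv f z1 * (z2 - z1)) := by ring
  rw [e1, norm_neg, norm_mul] at hmv
  have hzz : 0 < ‖z2 - z1‖ := norm_pos_iff.2 (sub_ne_zero.2 (Ne.symm hne))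
  nlinarith

end Pool.Agent.V8H35.AP
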