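import Pool.Agent.V8H35.AP.BS
import Pool.Agent.V8H35.AP.MM
import Pool.Agent.V8H35.LV.CT

set_option autoImplicit false

/-! Zeros of the derivative of zeta. -/

namespace Pool.Agent.V8H35.AP

open Complex Metric Set MeasureTheory Filter

theorem poly (X : ℕ) : ∃ C : ℝ, 1 ≤ C ∧ ∀ s : ℂ, -(X : ℝ) ≤ s.re → 1 ≤ |s.im| →
    ‖riemannZeta s‖ ≤ C * |s.im| ^ (X + 2) := by
  obtain ⟨C1, hC1, h1⟩ := Pool.Agent.H448R2.GC.X1.zeta_bdd
  obtain ⟨C2, hC2, h2⟩ := Pool.Agent.H52R4.PZT1.zeta_strip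
  obtain ⟨C3, hC3, h3⟩ := Pool.Agent.H448R2.GC.zeta_left X
  refine ⟨1 + C1 + C2 + C3 * 2 ^ (X + 2), by nlinarith [show (0:ℝ) < C3 * 2 ^ (X + 2) by positivity],
    fun s hs hi => ?_⟩
  have hp1 : (1 : ℝ) ≤ |s.im| ^ (X + 2) := one_le_pow₀ hi
  have hp2 : |s.im| ^ 2 ≤ |s.im| ^ (X + 2) := pow_le_pow_right₀ hi (by omega)
  have hp0 : (0 : ℝ) < |s.im| ^ (X + 2) := by linarith
  have q1 : 0 ≤ C1 * |s.im| ^ (X + 2) := by positivity
  have q2 : 0 ≤ C2 * |s.im| ^ (X + 2) := by positivity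
  have q3 : 0 ≤ C3 * 2 ^ (X + 2) * |s.im| ^ (X + 2) := by positivity
  have e : (1 + C1 + C2 + C3 * 2 ^ (X + 2)) * |s.im| ^ (X + 2) =
    |s.im| ^ (X + 2) + C1 * |s.im| ^ (X + 2) + C2 * |s.im| ^ (X + 2) + C3 * 2 ^ (X + 2) * |s.im| ^ (X + 2) := by
      ring
  rw [e]
  rcases le_or_gt (3 / 2) s.re with ha | ha
  · have := h1 s ha
    have : C1 * 1 ≤ C1 * |s.im| ^ (X + 2) := by gcongr
    linarith
  rcases le_or_gt (-(1 / 2)) s.re with hb | hb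
  · have := h2 s hb (by linarith) hi
    have : C2 * |s.im| ^ 2 ≤ C2 * |s.im| ^ (X + 2) := by gcongr
    linarith
  · have h4 := h3 s hs hb.le
    have h5 : (1 + |s.im|) ^ (1 / 2 - s.re) ≤ 2 ^ (X + 2) * |s.im| ^ (X + 2) := by
      calc (1 + |s.im|) ^ (1 / 2 - s.re) ≤ (1 + |s.im|) ^ (((X + 2 : ℕ) : ℝ)) :=
            Real.rpow_le_rpow_of_exponent_le (by linarith) (by push_cast; linarith)
        _ = (1 + |s.im|) ^ (X + 2) := Real.rpow_natCast _ _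
        _ ≤ (2 * |s.im|) ^ (X + 2) := by gcongr; linarith
        _ = _ := by rw [mul_pow]
    have h6 : C3 * (1 + |s.im|) ^ (1 / 2 - s.re) ≤ C3 * (2 ^ (X + 2) * |s.im| ^ (X + 2)) := by gcongr
    linarith

theorem dz_poly (X : ℕ) : ∃ C : ℝ, 1 ≤ C ∧ ∀ s : ℂ, -(X : ℝ) ≤ s.re → 2 ≤ s.im →
    ‖deriv riemannZeta s‖ ≤ C * s.im ^ (X + 3) := by
  obtain ⟨C, hC, h⟩ := poly (X + 1)
  refine ⟨C * 2 ^ (X + 3), by nlinarith [show (1:ℝ) ≤ 2 ^ (X + 3) from one_le_pow₀ (by norm_num)],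
    fun z hz hi => ?_⟩
  have hb : ∀ w ∈ closedBall z 1, -((X + 1 : ℕ) : ℝ) ≤ w.re ∧ 1 ≤ w.im ∧ w.im ≤ 2 * z.im := by
    intro w hw
    rw [mem_closedBall, dist_eq_norm] at hw
    have h1 := abs_le.1 ((Complex.abs_re_le_norm _).trans hw)
    have h2 := abs_le.1 ((Complex.abs_im_le_norm _).trans hw)
    simp at h1 h2
    push_cast
    refine ⟨by linarith, by linarith, by linarith⟩
  have hd : DiffContOnCl ℂ riemannZeta (ball z 1) := by
    apply DifferentiableOn.diffContOnCl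
    rw [closure_ball z one_ne_zero]
    exact fun w hw => (z_diff w (by linarith [(hb w hw).2.1])).differentiableWithinAt
  have h1 := Complex.norm_deriv_le_of_forall_mem_sphere_norm_le (C := C * (2 * z.im) ^ (X + 3)) one_pos hd (by
    intro w hw
    obtain ⟨h3, h4, h5⟩ := hb w (sphere_subset_closedBall hw)
    have h6 := h w h3 (by rw [abs_of_pos (by linarith)]; exact h4)
    rw [abs_of_pos (by linarith)] at h6
    refine h6.trans ?_
    have : w.im ^ (X + 1 + 2) ≤ (2 * z.im) ^ (X + 3) := by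
      rw [show X + 1 + 2 = X + 3 by ring]
      gcongr
    gcongr)
  rw [div_one] at h1
  refine h1.trans (le_of_eq ?_)
  rw [mul_pow]; ring

/-- to the right -/
theorem right_one (s : ℂ) (hs : 2 ≤ s.re) : ‖riemannZeta s - 1‖ ≤ 2 ^ (2 - s.re) * (Real.pi ^ 2 / 6 - 1) := by
  rw [zeta_eq_tsum_one_div_nat_add_one_cpow (by linarith)]
  have hle0 : ∀ n : ℕ, ‖1 / ((n : ℂ) + 1) ^ s‖ = ((n : ℝ) + 1) ^ (-s.re) := by
    intro n
    have e : ((n : ℂ) + 1) = (((n : ℝ) + 1 : ℝ) : ℂ) := by push_cast; ring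
    rw [norm_div, norm_one, e, Complex.norm_cpow_eq_rpow_re_of_pos (by positivity), Real.rpow_neg (by positivity),
      one_div]
  have hle : ∀ n : ℕ, ‖1 / ((n : ℂ) + 1) ^ s‖ ≤ 1 / ((n : ℝ) + 1) ^ 2 := by
    intro n
    rw [hle0, Real.rpow_neg (by positivity), ← one_div]
    have h2 : ((n : ℝ) + 1) ^ 2 ≤ ((n : ℝ) + 1) ^ s.re := by
      rw [← Real.rpow_natCast]
      exact Real.rpow_le_rpow_of_exponent_le (by linarith [(Nat.cast_nonneg n : (0:ℝ) ≤ n)])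
        (by push_cast; exact hs)
    gcongr
  have hle2 : ∀ n : ℕ, ‖1 / (((n + 1 : ℕ) : ℂ) + 1) ^ s‖ ≤
      2 ^ (2 - s.re) * (1 / ((((n + 1 : ℕ) : ℝ) + 1) ^ 2)) := by
    intro n
    rw [hle0 (n + 1)]
    have hb : (2 : ℝ) ≤ ((n + 1 : ℕ) : ℝ) + 1 := by
      push_cast
      linarith [(Nat.cast_nonneg n : (0:ℝ) ≤ n)]
    have h1 : (((n + 1 : ℕ) : ℝ) + 1) ^ (2 - s.re) ≤ 2 ^ (2 - s.re) :=
      Real.rpow_le_rpow_of_nonpos (by norm_num) hb (by linarith)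
    have h2 : (((n + 1 : ℕ) : ℝ) + 1) ^ (-s.re) =
        (((n + 1 : ℕ) : ℝ) + 1) ^ (2 - s.re) * (1 / ((((n + 1 : ℕ) : ℝ) + 1) ^ 2)) := by
      rw [one_div, ← Real.rpow_natCast, ← Real.rpow_neg (by positivity), ← Real.rpow_add (by positivity)]
      congr 1
      push_cast; ring
    rw [h2]
    gcongr
  have hz2 := hasSum_zeta_two
  have hz3 : HasSum (fun n : ℕ => 1 / (((n : ℝ) + 1) ^ 2)) (Real.pi ^ 2 / 6) := by
    have := (hasSum_nat_add_iff (f := fun n : ℕ => 1 / ((n : ℝ) ^ 2)) (g := Real.pi ^ 2 / 6) 1).2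
      (by simpa using hz2)
    simpa using this
  have hsumm : Summable (fun n : ℕ => 1 / ((n : ℂ) + 1) ^ s) :=
    Summable.of_norm_bounded hz3.summable hle
  have e0 := hsumm.sum_add_tsum_nat_add 1
  simp only [Finset.range_one, Finset.sum_singleton, Nat.cast_zero, zero_add, Complex.one_cpow,
    div_one] at e0
  rw [← e0, add_sub_cancel_left]
  have hz4 : HasSum (fun n : ℕ => 1 / ((((n + 1 : ℕ) : ℝ) + 1) ^ 2)) (Real.pi ^ 2 / 6 - 1) := by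
    have := (hasSum_nat_add_iff (f := fun n : ℕ => 1 / (((n : ℝ) + 1) ^ 2)) (g := Real.pi ^ 2 / 6 - 1) 1).2
      (by simpa using hz3)
    simpa using this
  exact tsum_of_norm_bounded (hz4.mul_left (2 ^ (2 - s.re)))
    (f := fun n : ℕ => 1 / (((n + 1 : ℕ) : ℂ) + 1) ^ s) hle2

theorem at_four (s : ℂ) (hs : s.re = 4) : 1 / 25 ≤ ‖riemannZeta s - 1‖ := by
  rw [zeta_eq_tsum_one_div_nat_add_one_cpow (by linarith)]
  have hle0 : ∀ n : ℕ, ‖1 / ((n : ℂ) + 1) ^ s‖ = 1 / ((n : ℝ) + 1) ^ 4 := by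
    intro n
    have e : ((n : ℂ) + 1) = (((n : ℝ) + 1 : ℝ) : ℂ) := by push_cast; ring
    rw [norm_div, norm_one, e, Complex.norm_cpow_eq_rpow_re_of_pos (by positivity), hs,
      show (4 : ℝ) = ((4 : ℕ) : ℝ) by norm_num, Real.rpow_natCast]
  have hz2 := hasSum_zeta_four
  have hz3 : HasSum (fun n : ℕ => 1 / (((n : ℝ) + 1) ^ 4)) (Real.pi ^ 4 / 90) := by
    have := (hasSum_nat_add_iff (f := fun n : ℕ => 1 / ((n : ℝ) ^ 4)) (g := Real.pi ^ 4 / 90) 1).2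
      (by simpa using hz2)
    simpa using this
  have hsumm : Summable (fun n : ℕ => 1 / ((n : ℂ) + 1) ^ s) :=
    Summable.of_norm_bounded hz3.summable (fun n => (hle0 n).le)
  have e0 := hsumm.sum_add_tsum_nat_add 2
  have hz4 : HasSum (fun n : ℕ => 1 / ((((n + 2 : ℕ) : ℝ) + 1) ^ 4)) (Real.pi ^ 4 / 90 - 1 - 1 / 16) := by
    have := (hasSum_nat_add_iff (f := fun n : ℕ => 1 / (((n : ℝ) + 1) ^ 4))
      (g := Real.pi ^ 4 / 90 - 1 - 1 / 16) 2).2 (by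
        have e : Real.pi ^ 4 / 90 - 1 - 1 / 16 + ∑ i ∈ Finset.range 2, 1 / (((i : ℕ) : ℝ) + 1) ^ 4 =
            Real.pi ^ 4 / 90 := by
          rw [Finset.sum_range_succ, Finset.sum_range_one]
          norm_num
          ring
        rw [e]
        exact hz3)
    simpa using this
  have h3 := tsum_of_norm_bounded hz4 (f := fun n : ℕ => 1 / (((n + 2 : ℕ) : ℂ) + 1) ^ s)
    (fun n => (hle0 (n + 2)).le)
  rw [← e0, Finset.sum_range_succ, Finset.sum_range_one]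
  have h1 := hle0 1
  simp only [Nat.cast_zero, zero_add, Complex.one_cpow, div_one] at h1 ⊢
  have h4 : ‖(1 : ℂ) / (((1 : ℕ) : ℂ) + 1) ^ s‖ = 1 / 16 := by
    rw [h1]; norm_num
  have e1 : (1 : ℂ) + 1 / (((1 : ℕ) : ℂ) + 1) ^ s + (∑' n : ℕ, 1 / (((n + 2 : ℕ) : ℂ) + 1) ^ s) - 1 =
      1 / (((1 : ℕ) : ℂ) + 1) ^ s + (∑' n : ℕ, 1 / (((n + 2 : ℕ) : ℂ) + 1) ^ s) := by ring
  rw [e1]
  have h5 := norm_sub_le_norm_add (1 / (((1 : ℕ) : ℂ) + 1) ^ s) (∑' n : ℕ, 1 / (((n + 2 : ℕ) : ℂ) + 1) ^ s)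
  rw [h4] at h5
  have hp1 := Real.pi_lt_d4
  have hp0 := Real.pi_gt_three
  have hp2 : Real.pi ^ 2 ≤ 9.8697 := by nlinarith
  have hp4 : Real.pi ^ 4 ≤ 97.42 := by
    have : Real.pi ^ 4 = (Real.pi ^ 2) ^ 2 := by ring
    rw [this]
    nlinarith [sq_nonneg Real.pi]
  linarith

/-- a point where the derivative is not small -/
theorem cen (t : ℝ) (ht : 0 < t) : ∃ σ : ℝ, 4 ≤ σ ∧ σ ≤ 8 ∧
    1 / 200 ≤ ‖deriv riemannZeta ((σ : ℂ) + (t : ℂ) * I)‖ := by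
  by_contra hcon
  push Not at hcon
  have h4 := at_four (((4 : ℝ) : ℂ) + (t : ℂ) * I) (by simp)
  have h8 := right_one (((8 : ℝ) : ℂ) + (t : ℂ) * I) (by simp; norm_num)
  have hmv : ‖riemannZeta (((8 : ℝ) : ℂ) + (t : ℂ) * I) - riemannZeta (((4 : ℝ) : ℂ) + (t : ℂ) * I)‖ ≤
      1 / 200 * (8 - 4) := by
    have hd : ∀ y ∈ Icc (4 : ℝ) 8, HasDerivWithinAt (fun y : ℝ => riemannZeta ((y : ℂ) + (t : ℂ) * I))
        (deriv riemannZeta ((y : ℂ) + (t : ℂ) * I)) (Icc (4 : ℝ) 8) y := by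
      intro y _
      have h1 : HasDerivAt riemannZeta (deriv riemannZeta ((y : ℂ) + (t : ℂ) * I)) ((y : ℂ) + (t : ℂ) * I) :=
        (z_diff _ (by simpa using ht)).hasDerivAt
      have h2 : HasDerivAt (fun y : ℝ => ((y : ℂ) + (t : ℂ) * I)) 1 y := by
        have := (Complex.ofRealCLM.hasDerivAt (x := y)).add_const ((t : ℂ) * I)
        simpa using this
      have h3 := h1.comp y h2
      rw [mul_one] at h3
      exact h3.hasDerivWithinAt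
    exact norm_image_sub_le_of_norm_deriv_le_segment' hd (C := 1 / 200) (by
      intro y hy
      exact (hcon y hy.1 hy.2.le).le) 8 (right_mem_Icc.2 (by norm_num))
  have e8 : (((8 : ℝ) : ℂ) + (t : ℂ) * I).re = 8 := by simp
  rw [e8] at h8
  have h8' : (2 : ℝ) ^ ((2 : ℝ) - 8) * (Real.pi ^ 2 / 6 - 1) ≤ 1 / 90 := by
    have e : (2 : ℝ) ^ ((2 : ℝ) - 8) = 1 / 64 := by
      rw [show (2 : ℝ) - 8 = -((6 : ℕ) : ℝ) by norm_num, Real.rpow_neg (by norm_num), Real.rpow_natCast]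
      norm_num
    rw [e]
    have hp1 := Real.pi_lt_d2
    have hp0 := Real.pi_gt_three
    nlinarith
  have h1 := norm_sub_norm_le (riemannZeta (((4 : ℝ) : ℂ) + (t : ℂ) * I) - 1)
    (riemannZeta (((8 : ℝ) : ℂ) + (t : ℂ) * I) - 1)
  have e1 : riemannZeta (((4 : ℝ) : ℂ) + (t : ℂ) * I) - 1 - (riemannZeta (((8 : ℝ) : ℂ) + (t : ℂ) * I) - 1) =
    -(riemannZeta (((8 : ℝ) : ℂ) + (t : ℂ) * I) - riemannZeta (((4 : ℝ) : ℂ) + (t : ℂ) * I)) := by ring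
  rw [e1, norm_neg] at h1
  linarith

/-- the discs -/
theorem setup (B : ℕ) : ∃ C : ℝ, 1 ≤ C ∧ ∃ N : ℕ, ∀ m : ℕ, 6 * B + 60 ≤ m → ∃ c : ℂ, c.im = m ∧
    4 ≤ c.re ∧ c.re ≤ 8 ∧ DifferentiableOn ℂ (deriv riemannZeta) (ball c (6 * (B : ℝ) + 55)) ∧
    (∀ z ∈ ball c (6 * (B : ℝ) + 55), ‖deriv riemannZeta z‖ ≤ C * (m : ℝ) ^ N) ∧
    1 / 200 ≤ ‖deriv riemannZeta c‖ := by
  obtain ⟨C, hC, h⟩ := dz_poly (6 * B + 60)
  refine ⟨C * 2 ^ (6 * B + 60 + 3), by nlinarith [show (1:ℝ) ≤ 2 ^ (6 * B + 60 + 3) from one_le_pow₀ (by norm_num)],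
    6 * B + 60 + 3, fun m hm => ?_⟩
  have hm' : 6 * (B : ℝ) + 60 ≤ m := by exact_mod_cast hm
  have hB0 : (0 : ℝ) ≤ B := Nat.cast_nonneg _
  obtain ⟨σ, hσ1, hσ2, hσ3⟩ := cen (m : ℝ) (by linarith)
  have hb : ∀ z ∈ ball ((σ : ℂ) + ((m : ℝ) : ℂ) * I) (6 * (B : ℝ) + 55),
      -((6 * B + 60 : ℕ) : ℝ) ≤ z.re ∧ 2 ≤ z.im ∧ z.im ≤ 2 * m := by
    intro z hz
    rw [mem_ball, dist_eq_norm] at hz
    have h1 := abs_lt.1 ((Complex.abs_re_le_norm _).trans_lt hz)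
    have h2 := abs_lt.1 ((Complex.abs_im_le_norm _).trans_lt hz)
    simp at h1 h2
    push_cast
    refine ⟨by linarith, by linarith, by linarith⟩
  refine ⟨(σ : ℂ) + ((m : ℝ) : ℂ) * I, by simp, by simpa using hσ1, by simpa using hσ2, ?_, ?_, hσ3⟩
  · have h1 : DifferentiableOn ℂ riemannZeta (ball ((σ : ℂ) + ((m : ℝ) : ℂ) * I) (6 * (B : ℝ) + 55)) :=
      fun z hz => (z_diff z (by linarith [(hb z hz).2.1])).differentiableWithinAt
    exact h1.deriv isOpen_ball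
  · intro z hz
    obtain ⟨h1, h2, h3⟩ := hb z hz
    refine (h z h1 h2).trans ?_
    calc C * z.im ^ (6 * B + 60 + 3) ≤ C * (2 * (m : ℝ)) ^ (6 * B + 60 + 3) := by gcongr
      _ = _ := by rw [mul_pow]; ring

/-- critical points -/
def CS (B m : ℕ) : Set ℂ := {ρ | 0 ≤ ρ.re ∧ ρ.re ≤ (B : ℝ) + 1 ∧ (m : ℝ) - 1 ≤ ρ.im ∧ ρ.im ≤ (m : ℝ) + 2 ∧
  deriv riemannZeta ρ = 0}

theorem cs_card (B : ℕ) : ∃ K : ℝ, 1 ≤ K ∧ ∀ m : ℕ, 6 * B + 60 ≤ m → ∀ Z : Finset ℂ,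
    (∀ ρ ∈ Z, ρ ∈ CS B m) → (Z.card : ℝ) ≤ K * Real.log m := by
  obtain ⟨C, hC, N, h⟩ := setup B
  have hl2 : 0 < Real.log 2 := Real.log_pos (by norm_num)
  have hlC : 0 ≤ Real.log (200 * C) := Real.log_nonneg (by linarith)
  refine ⟨2 * (Real.log (200 * C) / Real.log 2 + N) + 1, by
    have : 0 ≤ Real.log (200 * C) / Real.log 2 := by positivity
    have : (0 : ℝ) ≤ N := Nat.cast_nonneg _
    linarith, fun m hm Z hZ => ?_⟩
  obtain ⟨c, hc1, hc2, hc3, hd, hM, hlow⟩ := h m hm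
  have hm' : 6 * (B : ℝ) + 60 ≤ m := by exact_mod_cast hm
  have hB0 : (0 : ℝ) ≤ B := Nat.cast_nonneg _
  have hcard := Pool.Agent.V8H35.LV.zeros_card (c := c) (r := 2 * (B : ℝ) + 18) (R := 6 * (B : ℝ) + 54)
    (R1 := 6 * (B : ℝ) + 55) (by linarith) (by linarith) (by linarith)
    (f := fun z => 200 * deriv riemannZeta z) (M := 200 * (C * (m : ℝ) ^ N)) (hd.const_mul 200) (by
      intro z hz
      rw [norm_mul]
      have := hM z (by rw [mem_sphere] at hz; rw [mem_ball, hz]; linarith)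
      have h200 : ‖(200 : ℂ)‖ = 200 := by norm_num
      rw [h200]
      linarith) (by
      rw [norm_mul]
      have h200 : ‖(200 : ℂ)‖ = 200 := by norm_num
      rw [h200]
      linarith) Z (by
      intro ρ hρ
      obtain ⟨h1, h2, h3, h4, h5⟩ := hZ ρ hρ
      refine ⟨?_, by rw [h5, mul_zero]⟩
      refine (Complex.norm_le_abs_re_add_abs_im _).trans ?_
      rw [sub_re, sub_im, hc1]
      have a1 : |ρ.re - c.re| ≤ B + 8 := abs_le.2 ⟨by linarith, by linarith⟩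
      have a2 : |ρ.im - m| ≤ 2 := abs_le.2 ⟨by linarith, by linarith⟩
      linarith)
  refine hcard.trans ?_
  have hm0 : (2 : ℝ) ≤ m := by linarith
  have hm1 : Real.log 2 ≤ Real.log m := Real.log_le_log (by norm_num) hm0
  have e1 : Real.log (200 * (C * (m : ℝ) ^ N)) = Real.log (200 * C) + N * Real.log m := by
    rw [← mul_assoc, Real.log_mul (by positivity) (by positivity), Real.log_pow]
  rw [e1]
  have h5 : Real.log (200 * C) ≤ Real.log (200 * C) / Real.log 2 * Real.log m := by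
    rw [div_mul_eq_mul_div, le_div_iff₀ hl2]
    exact mul_le_mul_of_nonneg_left hm1 hlC
  nlinarith

end Pool.Agent.V8H35.AP
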