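import Pool.Agent.V8H35.AP.FD
import Pool.Agent.N84.MD.A

set_option autoImplicit false

/-! The covering of the exceptional values. -/

namespace Pool.Agent.V8H35.AP

open Complex Metric Set MeasureTheory Filter Topology Asymptotics
open scoped ENNReal

/-- the distance of the values -/
theorem osc (η B : ℝ) (hη : 0 < η) (hη1 : η ≤ 1 / 8) (hB : 2 ≤ B) (m : ℕ) (hm : 5 ≤ m) (z ρ : ℂ)
    (h1 : 1 / 2 - η ≤ z.re) (h2 : z.re ≤ B) (h3 : (m : ℝ) ≤ z.im) (h4 : z.im ≤ (m : ℝ) + 1)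
    (h0 : deriv riemannZeta ρ = 0) (hd : ‖ρ - z‖ ≤ η / 4) :
    ‖riemannZeta z - riemannZeta ρ‖ ≤ 16 / η ^ 2 * √(W η B m) * ‖z - ρ‖ ^ 2 := by
  have hm' : (5 : ℝ) ≤ m := by exact_mod_cast hm
  obtain ⟨S, hS⟩ : ∃ S : ℝ, S = √(W η B m) := ⟨_, rfl⟩
  have hS0 : 0 ≤ S := by rw [hS]; exact Real.sqrt_nonneg _
  have hnear : ∀ w : ℂ, ‖w - z‖ ≤ η → w ∈ Box η B m := by
    intro w hw
    have a1 := abs_le.1 ((Complex.abs_re_le_norm _).trans hw)
    have a2 := abs_le.1 ((Complex.abs_im_le_norm _).trans hw)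
    rw [sub_re] at a1
    rw [sub_im] at a2
    exact ⟨⟨by linarith, by linarith⟩, ⟨by linarith, by linarith⟩⟩
  have him : ∀ w : ℂ, ‖w - z‖ ≤ η → 0 < w.im := by
    intro w hw
    have := (hnear w hw).2.1
    linarith
  have hzb : ∀ w : ℂ, ‖w - z‖ ≤ η → ‖riemannZeta w‖ ≤ S := by
    intro w hw
    rw [hS]
    apply Real.le_sqrt_of_sq_le
    rw [← norm_pow]
    exact W_le η B m (by omega) w (hnear w hw)
  have hd1 : ∀ w : ℂ, ‖w - z‖ ≤ 3 / 4 * η → ‖deriv riemannZeta w‖ ≤ 4 / η * S := by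
    intro w hw
    have hcl : ∀ u ∈ closedBall w (η / 4), ‖u - z‖ ≤ η := by
      intro u hu
      rw [mem_closedBall, dist_eq_norm] at hu
      have := norm_add_le (u - w) (w - z)
      rw [sub_add_sub_cancel] at this
      linarith
    have hdc : DiffContOnCl ℂ riemannZeta (ball w (η / 4)) := by
      apply DifferentiableOn.diffContOnCl
      rw [closure_ball w (by positivity)]
      exact fun u hu => (z_diff u (him u (hcl u hu))).differentiableWithinAt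
    have := Complex.norm_deriv_le_of_forall_mem_sphere_norm_le (C := S) (by positivity) hdc
      (fun u hu => hzb u (hcl u (sphere_subset_closedBall hu)))
    refine this.trans (le_of_eq ?_)
    field_simp
  have hzd : DifferentiableOn ℂ riemannZeta (ball z η) := fun u hu =>
    (z_diff u (him u (by rw [mem_ball, dist_eq_norm] at hu; exact hu.le))).differentiableWithinAt
  have hzd2 := hzd.deriv isOpen_ball
  have hd2 : ∀ w : ℂ, ‖w - z‖ ≤ η / 2 → ‖deriv (deriv riemannZeta) w‖ ≤ 16 / η ^ 2 * S := by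
    intro w hw
    have hcl : ∀ u ∈ closedBall w (η / 4), ‖u - z‖ ≤ 3 / 4 * η := by
      intro u hu
      rw [mem_closedBall, dist_eq_norm] at hu
      have := norm_add_le (u - w) (w - z)
      rw [sub_add_sub_cancel] at this
      linarith
    have hdc : DiffContOnCl ℂ (deriv riemannZeta) (ball w (η / 4)) := by
      apply DifferentiableOn.diffContOnCl
      rw [closure_ball w (by positivity)]
      refine hzd2.mono fun u hu => ?_
      rw [mem_ball, dist_eq_norm]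
      linarith [hcl u hu]
    have := Complex.norm_deriv_le_of_forall_mem_sphere_norm_le (C := 4 / η * S) (by positivity) hdc
      (fun u hu => hd1 u (hcl u (sphere_subset_closedBall hu)))
    refine this.trans (le_of_eq ?_)
    field_simp
    ring
  have hseg : ∀ w ∈ segment ℝ ρ z, ‖w - z‖ ≤ η / 2 ∧ ‖w - ρ‖ ≤ ‖z - ρ‖ := by
    rintro w ⟨a, b, ha, hb, hab, rfl⟩
    have ha' : a = 1 - b := by linarith
    have e1 : a • ρ + b • z - z = a • (ρ - z) := by
      have hb' : b = 1 - a := by linarith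
      rw [hb', smul_sub, sub_smul, one_smul]
      abel
    have e2 : a • ρ + b • z - ρ = b • (z - ρ) := by
      rw [ha', smul_sub, sub_smul, one_smul]
      abel
    rw [e1, e2, norm_smul, norm_smul, Real.norm_of_nonneg ha, Real.norm_of_nonneg hb]
    have := norm_nonneg (ρ - z)
    have := norm_nonneg (z - ρ)
    constructor
    · nlinarith
    · nlinarith
  have hA : ∀ w ∈ segment ℝ ρ z, ‖deriv riemannZeta w‖ ≤ 16 / η ^ 2 * S * ‖z - ρ‖ := by
    intro w hw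
    have := (convex_segment ρ z).norm_image_sub_le_of_norm_hasDerivWithin_le
      (f := deriv riemannZeta) (f' := deriv (deriv riemannZeta)) (C := 16 / η ^ 2 * S)
      (fun u hu => ((hzd2.differentiableAt (isOpen_ball.mem_nhds (by
        rw [mem_ball, dist_eq_norm]
        linarith [(hseg u hu).1]))).hasDerivAt).hasDerivWithinAt)
      (fun u hu => hd2 u (hseg u hu).1) (left_mem_segment ℝ ρ z) hw
    rw [h0, sub_zero] at this
    refine this.trans ?_
    have := (hseg w hw).2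
    gcongr
  have hB := (convex_segment ρ z).norm_image_sub_le_of_norm_hasDerivWithin_le
      (f := riemannZeta) (f' := deriv riemannZeta) (C := 16 / η ^ 2 * S * ‖z - ρ‖)
      (fun u hu => ((z_diff u (him u (by linarith [(hseg u hu).1]))).hasDerivAt).hasDerivWithinAt)
      hA (left_mem_segment ℝ ρ z) (right_mem_segment ℝ ρ z)
  rw [← hS]
  refine hB.trans (le_of_eq ?_)
  ring

/-- summability -/
theorem summW (κ η B τ : ℝ) (hκ : 0 < κ) (hη : 0 < η) (hη1 : η ≤ 1 / 8) (hB : 2 ≤ B)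
    (hτ : 1 + κ + 8 * η < τ) : Summable fun m : ℕ => (m : ℝ) ^ (-τ) * (1 + |W η B m|) := by
  have h1 : Summable fun m : ℕ => (m : ℝ) ^ (-τ) := Real.summable_nat_rpow.2 (by linarith)
  obtain ⟨e, he⟩ : ∃ e : ℝ, e = 1 + κ + 8 * η := ⟨_, rfl⟩
  obtain ⟨C, hC, hS⟩ := W_sum κ η B hκ hη hη1 hB
  rw [← he] at hS hτ
  have he1 : 1 < e := by rw [he]; linarith
  obtain ⟨A, hA⟩ : ∃ A : ℝ, A = ∑ m ∈ Finset.range 5, |W η B m| := ⟨_, rfl⟩
  have hA0 : 0 ≤ A := by rw [hA]; positivity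
  have hO : (fun n : ℕ => ∑ k ∈ Finset.Icc 1 n, |W η B k|) =O[atTop] fun n : ℕ => (n : ℝ) ^ e := by
    refine IsBigO.of_bound (A + C * 2 ^ e) ?_
    filter_upwards [eventually_ge_atTop 5] with n hn
    have hn' : (5 : ℝ) ≤ n := by exact_mod_cast hn
    rw [Real.norm_of_nonneg (Finset.sum_nonneg fun _ _ => abs_nonneg _),
      Real.norm_of_nonneg (by positivity)]
    have h2 : ∑ k ∈ Finset.Icc 1 n, |W η B k| ≤ A + ∑ m ∈ Finset.Ico 5 (n + 1), W η B m := by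
      have h3 : ∑ k ∈ Finset.Icc 1 n, |W η B k| ≤ ∑ k ∈ Finset.range 5 ∪ Finset.Ico 5 (n + 1), |W η B k| := by
        refine Finset.sum_le_sum_of_subset_of_nonneg ?_ fun _ _ _ => abs_nonneg _
        intro k hk
        rw [Finset.mem_Icc] at hk
        rw [Finset.mem_union, Finset.mem_range, Finset.mem_Ico]
        omega
      have hdis : Disjoint (Finset.range 5) (Finset.Ico 5 (n + 1)) := by
        rw [Finset.disjoint_left]
        intro k hk hk2
        rw [Finset.mem_range] at hk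
        rw [Finset.mem_Ico] at hk2
        omega
      rw [Finset.sum_union hdis] at h3
      refine h3.trans ?_
      rw [← hA]
      refine add_le_add le_rfl (le_of_eq (Finset.sum_congr rfl fun m hm => ?_))
      rw [Finset.mem_Ico] at hm
      exact abs_of_nonneg (W_nonneg η B hη.le (by linarith) m (by omega))
    have h4 := hS (n + 1) (by omega)
    have h5 : (((n + 1 : ℕ) : ℝ)) ^ e ≤ 2 ^ e * (n : ℝ) ^ e := by
      rw [← Real.mul_rpow (by norm_num) (by linarith)]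
      push_cast
      gcongr
      linarith
    have h6 : (1 : ℝ) ≤ (n : ℝ) ^ e := Real.one_le_rpow (by linarith) (by linarith)
    have h7 : C * (((n + 1 : ℕ) : ℝ)) ^ e ≤ C * (2 ^ e * (n : ℝ) ^ e) := by gcongr
    nlinarith
  have h2 := LSeriesSummable_of_sum_norm_bigO_and_nonneg (r := e) (s := (τ : ℂ)) hO
    (fun n => abs_nonneg _) (by linarith) (by rw [Complex.ofReal_re]; linarith)
  have h3 : Summable fun m : ℕ => (m : ℝ) ^ (-τ) * |W η B m| := by
    have h4 := h2.norm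
    refine Summable.of_nonneg_of_le (fun m => by positivity) (fun m => ?_) (h4.add (summable_of_ne_finset_zero
      (s := {0}) (f := fun m : ℕ => if m = 0 then (0 : ℝ) ^ (-τ) * |W η B 0| else 0) (by
        intro b hb
        rw [Finset.mem_singleton] at hb
        rw [if_neg hb])))
    rw [LSeries.norm_term_eq]
    by_cases hm : m = 0
    · subst hm
      simp
    · rw [if_neg hm, if_neg hm, add_zero, Complex.norm_real, Real.norm_of_nonneg (abs_nonneg _),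
        Complex.ofReal_re, Real.rpow_neg (Nat.cast_nonneg _), div_eq_inv_mul]
  have h5 := h1.add h3
  refine h5.congr fun m => ?_
  ring

open Classical in
noncomputable def Crit (B m : ℕ) : Finset ℂ := if h : (CS B m).Finite then h.toFinset else ∅

theorem crit_spec (B : ℕ) : ∃ K : ℝ, 1 ≤ K ∧ ∀ m : ℕ, 6 * B + 60 ≤ m →
    (∀ x ∈ CS B m, x ∈ Crit B m) ∧ ((Crit B m).card : ℝ) ≤ K * Real.log m := by
  obtain ⟨K, hK, h⟩ := cs_card B
  refine ⟨K, hK, fun m hm => ?_⟩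
  have hfin : (CS B m).Finite := by
    by_contra hinf
    have hinf' : (CS B m).Infinite := hinf
    obtain ⟨t, ht1, ht2⟩ := hinf'.exists_subset_card_eq (⌊K * Real.log m⌋₊ + 1)
    have h1 := h m hm t (fun x hx => ht1 hx)
    rw [ht2] at h1
    have h2 := Nat.lt_floor_add_one (K * Real.log m)
    push_cast at h1
    linarith
  rw [Crit, dif_pos hfin]
  exact ⟨fun x hx => hfin.mem_toFinset.2 hx, h m hm _ fun x hx => hfin.mem_toFinset.1 hx⟩

/-- exceptional values -/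
def Bad (κ η : ℝ) (B : ℕ) : Set ℂ := {a | ∀ T : ℝ, ∃ s s' : ℂ, s ≠ s' ∧ T ≤ s.im ∧ 1 / 2 - η ≤ s.re ∧
  s.re ≤ B ∧ ‖s' - s‖ ≤ s.im ^ (-κ) ∧ riemannZeta s = a ∧ riemannZeta s' = a}

theorem bad_cover (κ η ε : ℝ) (hε : 0 < ε) (hεκ : ε < κ) (hη : 0 < η) (hη1 : η ≤ 1 / 8) (B : ℕ)
    (hB : 2 ≤ B) : ∃ m₀ : ℕ, 6 * B + 60 ≤ m₀ ∧ ∀ a ∈ Bad κ η B,
    ∃ᶠ n : ℕ in atTop, ∃ c ∈ Crit B (n + m₀), a ∈ closedBall (riemannZeta c)
      (16 / η ^ 2 * √(W η B (n + m₀)) * (((n + m₀ : ℕ) : ℝ) ^ (-κ + ε)) ^ 2) := by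
  have hB' : (2 : ℝ) ≤ B := by exact_mod_cast hB
  obtain ⟨K, hK, hcr⟩ := crit_spec B
  have t2 : Tendsto (fun m : ℕ => (m : ℝ) ^ (-(κ - ε))) atTop (𝓝 0) :=
    (tendsto_rpow_neg_atTop (by linarith)).comp tendsto_natCast_atTop_atTop
  obtain ⟨m₁, hm₁⟩ := eventually_atTop.1 ((find B κ ε (by linarith) hε hεκ.le).and
    (t2.eventually (eventually_le_nhds (show (0 : ℝ) < η / 4 by positivity))))
  refine ⟨m₁ + (6 * B + 60), by omega, fun a ha => ?_⟩
  obtain ⟨m₀, hm₀⟩ : ∃ m₀ : ℕ, m₀ = m₁ + (6 * B + 60) := ⟨_, rfl⟩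
  rw [← hm₀]
  rw [frequently_atTop]
  intro N
  obtain ⟨s, s', h1, h2, h3, h4, h5, h6, h7⟩ := ha ((N + m₀ : ℕ) : ℝ)
  have hm4 : (60 : ℝ) ≤ m₀ := by exact_mod_cast (by omega : 60 ≤ m₀)
  have ht0 : (60 : ℝ) ≤ s.im := by
    push_cast at h2
    have : (0 : ℝ) ≤ N := Nat.cast_nonneg _
    linarith
  have hfl : N + m₀ ≤ ⌊s.im⌋₊ := Nat.le_floor h2
  obtain ⟨n, hn⟩ : ∃ n : ℕ, n + m₀ = ⌊s.im⌋₊ := ⟨⌊s.im⌋₊ - m₀, by omega⟩
  refine ⟨n, by omega, ?_⟩
  obtain ⟨m, hm⟩ : ∃ m : ℕ, m = n + m₀ := ⟨_, rfl⟩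
  rw [← hm] at hn ⊢
  have hma : (m : ℝ) ≤ s.im := by rw [hn]; exact Nat.floor_le (by linarith)
  have hmb : s.im < (m : ℝ) + 1 := by rw [hn]; exact Nat.lt_floor_add_one s.im
  obtain ⟨f1, f2⟩ := hm₁ m (by omega)
  have hmm : 6 * B + 60 ≤ m := by omega
  have hm' : (60 : ℝ) ≤ m := by exact_mod_cast (by omega : 60 ≤ m)
  have hdist : ‖s' - s‖ ≤ (m : ℝ) ^ (-κ) :=
    h5.trans (Real.rpow_le_rpow_of_nonpos (by linarith) hma (by linarith))
  obtain ⟨ρ, hρ1, hρ2⟩ := f1 s s' (by linarith) h4 hma hmb.le h1 hdist (h6.trans h7.symm)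
  have hsmall : (m : ℝ) ^ (-κ + ε) ≤ η / 4 := by
    rw [show -κ + ε = -(κ - ε) by ring]; exact f2
  have b1 := abs_lt.1 ((Complex.abs_re_le_norm _).trans_lt hρ2)
  have b2 := abs_lt.1 ((Complex.abs_im_le_norm _).trans_lt hρ2)
  rw [sub_re] at b1
  rw [sub_im] at b2
  refine ⟨ρ, (hcr m hmm).1 ρ ⟨by linarith, by linarith, by linarith, by linarith, hρ1⟩, ?_⟩
  have ho := osc η B hη hη1 hB' m (by omega) s ρ h3 h4 hma hmb.le hρ1 (by linarith)
  rw [mem_closedBall, dist_eq_norm, ← h6]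
  refine ho.trans ?_
  have : ‖s - ρ‖ ≤ (m : ℝ) ^ (-κ + ε) := by
    rw [norm_sub_rev]; exact hρ2.le
  gcongr

theorem bad_dim_aux (κ η ε D : ℝ) (hε : 0 < ε) (hεκ : ε < κ) (hη : 0 < η) (hη1 : η ≤ 1 / 8) (B : ℕ)
    (hB : 2 ≤ B) (hD0 : 0 < D) (hD2 : D ≤ 2) (hD : 1 + ε + 8 * η < 2 * (κ - ε) * D - ε) :
    dimH (Bad κ η B) ≤ ENNReal.ofReal D := by
  have hB' : (2 : ℝ) ≤ B := by exact_mod_cast hB
  obtain ⟨K, hK, hcr⟩ := crit_spec B
  obtain ⟨m₀, hm₀, hcov⟩ := bad_cover κ η ε hε hεκ hη hη1 B hB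
  have hcore := Pool.Agent.N84.MD.core (X := ℂ) (ι := ℂ)
    (fun n c => closedBall (riemannZeta c) (16 / η ^ 2 * √(W η B (n + m₀)) * (((n + m₀ : ℕ) : ℝ) ^ (-κ + ε)) ^ 2))
    D hD0 (fun n => Crit B (n + m₀))
    (fun n => 2 * (16 / η ^ 2 * √(W η B (n + m₀)) * (((n + m₀ : ℕ) : ℝ) ^ (-κ + ε)) ^ 2))
    (fun n => by positivity)
    (fun n i _ => by
      have hr : 0 ≤ 16 / η ^ 2 * √(W η B (n + m₀)) * (((n + m₀ : ℕ) : ℝ) ^ (-κ + ε)) ^ 2 := by positivity
      rw [← Metric.closedEBall_ofReal hr]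
      refine Metric.ediam_closedEBall_le.trans (le_of_eq ?_)
      rw [ENNReal.ofReal_mul (p := 2) (by norm_num), ENNReal.ofReal_ofNat])
    ?_
  · refine le_trans (dimH_mono ?_) hcore
    intro a ha
    exact hcov a ha
  · -- summability
    have hs := summW ε η B (2 * (κ - ε) * D - ε) hε hη hη1 hB' hD
    have hs1 := (summable_nat_add_iff m₀).2 hs
    refine Summable.of_nonneg_of_le (fun n => by positivity) (fun n => ?_)
      (hs1.mul_left (K * (1 / ε) * (2 * (16 / η ^ 2)) ^ D))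
    obtain ⟨m, hm⟩ : ∃ m : ℕ, m = n + m₀ := ⟨_, rfl⟩
    rw [← hm]
    have hmm : 6 * B + 60 ≤ m := by omega
    have hm4 : (60 : ℝ) ≤ m := by exact_mod_cast (by omega : 60 ≤ m)
    have hW := W_nonneg η B hη.le (by linarith) m (by omega)
    have h1 := (hcr m hmm).2
    have h2 : Real.log m ≤ (1 / ε) * (m : ℝ) ^ ε := by
      have q2 := Real.log_le_rpow_div (x := (m : ℝ)) (ε := ε) (by linarith) hε
      calc Real.log m ≤ (m : ℝ) ^ ε / ε := q2
        _ = _ := by ring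
    have h3 : (2 * (16 / η ^ 2 * √(W η B m) * ((m : ℝ) ^ (-κ + ε)) ^ 2)) ^ D ≤
        (2 * (16 / η ^ 2)) ^ D * ((m : ℝ) ^ (-(2 * (κ - ε) * D)) * (1 + |W η B m|)) := by
      have q1 : (√(W η B m)) ^ D ≤ 1 + |W η B m| := by
        rw [abs_of_nonneg hW, Real.sqrt_eq_rpow, ← Real.rpow_mul hW]
        rcases le_total (W η B m) 1 with h | h
        · have := Real.rpow_le_one hW h (show 0 ≤ 1 / 2 * D by positivity)
          linarith
        · have := Real.rpow_le_rpow_of_exponent_le h (show 1 / 2 * D ≤ 1 by linarith)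
          rw [Real.rpow_one] at this
          linarith
      have q2 : (((m : ℝ) ^ (-κ + ε)) ^ 2) ^ D = (m : ℝ) ^ (-(2 * (κ - ε) * D)) := by
        rw [← Real.rpow_natCast ((m : ℝ) ^ (-κ + ε)), ← Real.rpow_mul (by positivity), ← Real.rpow_mul (by linarith)]
        congr 1; push_cast; ring
      have q3 : (2 * (16 / η ^ 2 * √(W η B m) * ((m : ℝ) ^ (-κ + ε)) ^ 2)) ^ D =
          (2 * (16 / η ^ 2)) ^ D * ((((m : ℝ) ^ (-κ + ε)) ^ 2) ^ D * (√(W η B m)) ^ D) := by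
        rw [← Real.mul_rpow (by positivity) (by positivity), ← Real.mul_rpow (by positivity) (by positivity)]
        congr 1; ring
      rw [q3, q2]
      gcongr
    have h4 : (m : ℝ) ^ ε * (m : ℝ) ^ (-(2 * (κ - ε) * D)) = (m : ℝ) ^ (-(2 * (κ - ε) * D - ε)) := by
      rw [← Real.rpow_add (by linarith)]
      congr 1; ring
    calc ((Crit B m).card : ℝ) * (2 * (16 / η ^ 2 * √(W η B m) * ((m : ℝ) ^ (-κ + ε)) ^ 2)) ^ D
        ≤ (K * ((1 / ε) * (m : ℝ) ^ ε)) * ((2 * (16 / η ^ 2)) ^ D * ((m : ℝ) ^ (-(2 * (κ - ε) * D)) * (1 + |W η B m|))) := by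
          refine mul_le_mul (h1.trans ?_) h3 (by positivity) (by positivity)
          gcongr
      _ = K * (1 / ε) * (2 * (16 / η ^ 2)) ^ D * (((m : ℝ) ^ ε * (m : ℝ) ^ (-(2 * (κ - ε) * D))) * (1 + |W η B m|)) := by
          ring
      _ = _ := by rw [h4]

theorem bad_mono {κ η η' : ℝ} (h : η' ≤ η) (B : ℕ) : Bad κ η' B ⊆ Bad κ η B := by
  intro a ha T
  obtain ⟨s, s', h1, h2, h3, h4⟩ := ha T
  exact ⟨s, s', h1, h2, by linarith, h4⟩

/-- the dimension -/
theorem bad_dim (κ D : ℝ) (hκ : 0 < κ) (hD0 : 0 < D) (hD2 : D ≤ 2) (hD : 1 < 2 * κ * D) :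
    ∃ η : ℝ, 0 < η ∧ ∀ B : ℕ, 2 ≤ B → dimH (Bad κ η B) ≤ ENNReal.ofReal D := by
  obtain ⟨ε, hε⟩ : ∃ ε : ℝ, ε = min ((2 * κ * D - 1) / 16) (κ / 2) := ⟨_, rfl⟩
  have hε0 : 0 < ε := by rw [hε]; exact lt_min (by linarith) (by linarith)
  have hε1 : ε ≤ (2 * κ * D - 1) / 16 := by rw [hε]; exact min_le_left _ _
  have hε2 : ε ≤ κ / 2 := by rw [hε]; exact min_le_right _ _
  refine ⟨min (ε / 8) (1 / 8), lt_min (by linarith) (by norm_num), fun B hB => ?_⟩
  have h1 : min (ε / 8) (1 / 8) ≤ ε / 8 := min_le_left _ _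
  refine bad_dim_aux κ _ ε D hε0 (by linarith) (lt_min (by linarith) (by norm_num)) (min_le_right _ _) B hB hD0 hD2 ?_
  nlinarith

end Pool.Agent.V8H35.AP
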