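import Pool.Agent.V8H35.AP.CR

set_option autoImplicit false

/-! Two near points with the same value: a critical point nearby. -/

namespace Pool.Agent.V8H35.AP

open Complex Metric Set MeasureTheory Filter Topology

theorem find (B : ℕ) (κ ε : ℝ) (hκ : 0 < κ) (hε : 0 < ε) (hεκ : ε ≤ κ) : ∀ᶠ m : ℕ in atTop,
    ∀ z1 z2 : ℂ, 0 ≤ z1.re → z1.re ≤ B → (m : ℝ) ≤ z1.im → z1.im ≤ m + 1 → z1 ≠ z2 →
    ‖z2 - z1‖ ≤ (m : ℝ) ^ (-κ) → riemannZeta z1 = riemannZeta z2 →
    ∃ ρ : ℂ, deriv riemannZeta ρ = 0 ∧ ‖ρ - z1‖ < (m : ℝ) ^ (-κ + ε) := by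
  obtain ⟨C, hC, N, h⟩ := setup B
  have hB0 : (0 : ℝ) ≤ B := Nat.cast_nonneg _
  have hl2 : 0 < Real.log 2 := Real.log_pos (by norm_num)
  obtain ⟨R, hR⟩ : ∃ R : ℝ, R = 6 * (B : ℝ) + 54 := ⟨_, rfl⟩
  have hR0 : 0 < R := by linarith
  have hlR : 0 ≤ Real.log R := Real.log_nonneg (by linarith)
  obtain ⟨a, ha⟩ : ∃ a : ℝ, a = Real.log (200 * C) := ⟨_, rfl⟩
  have ha0 : 0 ≤ a := by rw [ha]; exact Real.log_nonneg (by linarith)
  obtain ⟨K, hK⟩ : ∃ K : ℝ, K = (a + N) / Real.log 2 + 1 := ⟨_, rfl⟩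
  have hN0 : (0 : ℝ) ≤ N := Nat.cast_nonneg _
  have hK0 : 0 ≤ K := by rw [hK]; positivity
  obtain ⟨K', hK'⟩ : ∃ K' : ℝ, K' = 2 + K * (Real.log R + κ) + 3 * (a + N) := ⟨_, rfl⟩
  have hK'0 : 0 ≤ K' := by rw [hK']; positivity
  have t1 : Tendsto (fun m : ℕ => 4 * (K' + 1) * (16 / ε ^ 2) * (m : ℝ) ^ (-(ε / 2))) atTop (𝓝 (4 * (K' + 1) * (16 / ε ^ 2) * 0)) :=
    ((tendsto_rpow_neg_atTop (by positivity : 0 < ε / 2)).comp tendsto_natCast_atTop_atTop).const_mul _
  have t2 : Tendsto (fun m : ℕ => (m : ℝ) ^ (-ε)) atTop (𝓝 0) :=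
    (tendsto_rpow_neg_atTop hε).comp tendsto_natCast_atTop_atTop
  rw [mul_zero] at t1
  filter_upwards [eventually_ge_atTop (6 * B + 60), t1.eventually (eventually_le_nhds (show (0 : ℝ) < 1 / 4 by norm_num)),
    t2.eventually (eventually_le_nhds (show (0 : ℝ) < 1 / 2 by norm_num))] with m hm h1 h2 z1 z2 b1 b2 b3 b4 hne hd heq
  by_contra hcon
  push Not at hcon
  obtain ⟨c, hc1, hc2, hc3, hdf, hM, hlow⟩ := h m hm
  have hm' : 6 * (B : ℝ) + 60 ≤ m := by exact_mod_cast hm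
  have hm0 : (0 : ℝ) < m := by linarith
  obtain ⟨L, hL⟩ : ∃ L : ℝ, L = Real.log m := ⟨_, rfl⟩
  have hL1 : 1 ≤ L := by
    rw [hL, Real.le_log_iff_exp_le hm0]
    have := Real.exp_one_lt_d9
    linarith
  obtain ⟨r1, hr1⟩ : ∃ r1 : ℝ, r1 = (m : ℝ) ^ (-κ + ε) := ⟨_, rfl⟩
  have hr0 : 0 < r1 := by rw [hr1]; positivity
  have hr1' : r1 ≤ 1 := by
    rw [hr1]; exact Real.rpow_le_one_of_one_le_of_nonpos (by linarith) (by linarith)
  have hlr1 : -(κ * L) ≤ Real.log r1 := by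
    rw [hr1, Real.log_rpow hm0, ← hL]
    nlinarith
  obtain ⟨M, hMd⟩ : ∃ M : ℝ, M = C * (m : ℝ) ^ N := ⟨_, rfl⟩
  rw [← hMd] at hM
  have hM0 : 0 < M := by rw [hMd]; positivity
  have hlM : Real.log (200 * M) ≤ (a + N) * L := by
    rw [hMd, ← mul_assoc, Real.log_mul (by positivity) (by positivity), Real.log_pow, ← ha, ← hL]
    nlinarith
  have hz1c : ‖z1 - c‖ ≤ (2 * (B : ℝ) + 18) / 2 := by
    refine (Complex.norm_le_abs_re_add_abs_im _).trans ?_
    rw [sub_re, sub_im, hc1]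
    have a1 : |z1.re - c.re| ≤ B + 8 := abs_le.2 ⟨by linarith, by linarith⟩
    have a2 : |z1.im - m| ≤ 1 := abs_le.2 ⟨by linarith, by linarith⟩
    linarith
  have hball : ∀ z ∈ ball z1 r1, z ∈ ball c (6 * (B : ℝ) + 55) := by
    intro z hz
    rw [mem_ball, dist_eq_norm] at hz ⊢
    have := norm_add_le (z - z1) (z1 - c)
    rw [sub_add_sub_cancel] at this
    linarith
  have hnz : ∀ z ∈ ball z1 r1, deriv riemannZeta z ≠ 0 := by
    intro z hz h0
    have := hcon z h0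
    rw [mem_ball, dist_eq_norm] at hz
    rw [← hr1] at this
    linarith
  -- the integer
  obtain ⟨n, hn⟩ : ∃ n : ℕ, n = ⌊Real.log (200 * M) / Real.log 2⌋₊ + 1 := ⟨_, rfl⟩
  have hn1 : Real.log (200 * M) / Real.log 2 < n := by
    rw [hn]; push_cast; exact Nat.lt_floor_add_one _
  have hMc : ‖deriv riemannZeta c‖ ≤ M := hM c (mem_ball_self (by linarith))
  have h200M : 0 ≤ Real.log (200 * M) := Real.log_nonneg (by linarith)
  have hn2 : (n : ℝ) ≤ K * L := by
    have q1 : (n : ℝ) ≤ Real.log (200 * M) / Real.log 2 + 1 := by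
      rw [hn]; push_cast
      have := Nat.floor_le (show 0 ≤ Real.log (200 * M) / Real.log 2 by positivity)
      linarith
    have q2 : Real.log (200 * M) / Real.log 2 ≤ (a + N) / Real.log 2 * L := by
      rw [div_mul_eq_mul_div]
      gcongr
    rw [hK]
    nlinarith
  have hpow : M < ‖deriv riemannZeta c‖ * 2 ^ n := by
    have q1 : 200 * M < 2 ^ n := by
      rw [← Real.log_lt_log_iff (by positivity) (by positivity), Real.log_pow]
      rwa [div_lt_iff₀ hl2] at hn1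
    have q2 : (1 / 200 : ℝ) * 2 ^ n ≤ ‖deriv riemannZeta c‖ * 2 ^ n := by gcongr
    linarith
  have hc0 : 0 < ‖deriv riemannZeta c‖ := by linarith
  have hmm := minmod c (2 * (B : ℝ) + 18) R (6 * (B : ℝ) + 55) (by linarith) (by linarith) (by linarith) z1 r1
    hr0 hr1' hz1c n (deriv riemannZeta) M hdf (fun z hz => hM z (by
      rw [mem_sphere] at hz; rw [mem_ball, hz]; linarith)) hc0 hpow hnz
  -- logarithm
  have hz0 : 0 < ‖deriv riemannZeta z1‖ := norm_pos_iff.2 (hnz z1 (mem_ball_self hr0))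
  have hlog : Real.log (M / ‖deriv riemannZeta z1‖) ≤ K' * L ^ 2 := by
    have hv : 0 < M * Real.exp (-2) * (r1 / R) ^ n * (‖deriv riemannZeta c‖ / M) ^ 3 := by positivity
    have q1 := Real.log_le_log hv hmm
    rw [Real.log_mul (by positivity) (by positivity), Real.log_mul (by positivity) (by positivity),
      Real.log_mul (by positivity) (by positivity), Real.log_exp, Real.log_pow, Real.log_pow,
      Real.log_div (by positivity) (by positivity), Real.log_div (by positivity) (by positivity)] at q1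
    rw [Real.log_div (by positivity) (by positivity)]
    have q2 : -Real.log 200 ≤ Real.log ‖deriv riemannZeta c‖ := by
      rw [← Real.log_inv]
      apply Real.log_le_log (by norm_num)
      rw [← one_div]; exact hlow
    have q3 : Real.log (200 * M) = Real.log 200 + Real.log M := Real.log_mul (by norm_num) (by positivity)
    have q4 : (n : ℝ) * (Real.log R - Real.log r1) ≤ K * L * ((Real.log R + κ) * L) := by
      have : Real.log R - Real.log r1 ≤ (Real.log R + κ) * L := by nlinarith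
      have h0 : 0 ≤ Real.log R - Real.log r1 := by
        have := Real.log_nonpos hr0.le hr1'
        linarith
      exact mul_le_mul hn2 this h0 (by positivity)
    have q5 : 2 + 3 * (a + N) * L ≤ (2 + 3 * (a + N)) * L ^ 2 := by
      have : 0 ≤ 3 * (a + N) := by positivity
      have hL2 : L ≤ L ^ 2 := by nlinarith
      nlinarith
    push_cast at q1
    rw [hK']
    nlinarith
  -- contradiction
  refine inj_crit (f := riemannZeta) (z1 := z1) (z2 := z2) (r1 := r1) (M := M) hr0 ?_ hnz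
    (fun z hz => hM z (hball z hz)) ?_ ?_ hne heq
  · intro z hz
    refine z_diff z ?_
    rw [mem_ball, dist_eq_norm] at hz
    have := abs_lt.1 ((Complex.abs_im_le_norm _).trans_lt hz)
    rw [sub_im] at this
    linarith
  · have hdr : ‖z2 - z1‖ / r1 ≤ (m : ℝ) ^ (-ε) := by
      rw [div_le_iff₀ hr0, hr1, ← Real.rpow_add hm0]
      refine hd.trans (le_of_eq ?_)
      congr 1; ring
    have hL2 : L ^ 2 ≤ 16 / ε ^ 2 * (m : ℝ) ^ (ε / 2) := by
      have q := Real.log_le_rpow_div (x := (m : ℝ)) (ε := ε / 4) hm0.le (by positivity)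
      rw [← hL] at q
      have q2 : ((m : ℝ) ^ (ε / 4)) ^ 2 = (m : ℝ) ^ (ε / 2) := by
        rw [← Real.rpow_natCast, ← Real.rpow_mul hm0.le]
        congr 1; push_cast; ring
      calc L ^ 2 ≤ ((m : ℝ) ^ (ε / 4) / (ε / 4)) ^ 2 := by gcongr
        _ = 16 / ε ^ 2 * (m : ℝ) ^ (ε / 2) := by rw [div_pow, q2]; field_simp; ring
    calc 4 / r1 * ‖z2 - z1‖ * (Real.log (M / ‖deriv riemannZeta z1‖) + 1)
        = 4 * (‖z2 - z1‖ / r1) * (Real.log (M / ‖deriv riemannZeta z1‖) + 1) := by ring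
      _ ≤ 4 * (m : ℝ) ^ (-ε) * ((K' + 1) * L ^ 2) := by
          have hlog0 : 0 ≤ Real.log (M / ‖deriv riemannZeta z1‖) :=
            Real.log_nonneg (by rw [le_div_iff₀ hz0, one_mul]; exact hM z1 (hball z1 (mem_ball_self hr0)))
          have hL2 : 1 ≤ L ^ 2 := one_le_pow₀ hL1
          have hq : Real.log (M / ‖deriv riemannZeta z1‖) + 1 ≤ (K' + 1) * L ^ 2 := by linarith
          exact mul_le_mul (mul_le_mul_of_nonneg_left hdr (by norm_num)) hq (by linarith) (by positivity)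
      _ ≤ 4 * (m : ℝ) ^ (-ε) * ((K' + 1) * (16 / ε ^ 2 * (m : ℝ) ^ (ε / 2))) := by gcongr
      _ = 4 * (K' + 1) * (16 / ε ^ 2) * ((m : ℝ) ^ (-ε) * (m : ℝ) ^ (ε / 2)) := by ring
      _ = 4 * (K' + 1) * (16 / ε ^ 2) * (m : ℝ) ^ (-(ε / 2)) := by
          rw [← Real.rpow_add hm0]
          congr 2; ring
      _ ≤ 1 / 4 := h1
  · have e : (m : ℝ) ^ (-κ) = r1 * (m : ℝ) ^ (-ε) := by
      rw [hr1, ← Real.rpow_add hm0]
      congr 1; ring
    rw [e] at hd
    nlinarith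

end Pool.Agent.V8H35.AP
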